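import Pool.Agent.Lib_helper36.Abund.Psi

/-!
# Counting classes from below
-/

set_option autoImplicit false

namespace Pool.Agent.Abund

open Subgroup
open scoped commutatorElement

section Count

variable {p : ℕ} [hp : Fact p.Prime] {Q : Type*} [Group Q] [Fintype Q]

open Classical in
lemma card_filter_mem (Y : Subgroup Q) :
    (Finset.univ.filter fun x : Q => x ∈ Y).card = Nat.card Y := by
  rw [Nat.card_eq_fintype_card, Fintype.card_subtype]

open Classical in
lemma sum_inside (hQ : IsPGroup p Q) (k : ℕ) :
    ∀ (Y : Subgroup Q), Y.Normal → Nat.card Y = p ^ k →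
      Nat.card Q * (1 + (p - 1) * k) ≤ ∑ x ∈ Finset.univ.filter (fun x : Q => x ∈ Y), cc x := by
  induction k with
  | zero =>
    intro Y hY hcard
    rw [pow_zero] at hcard
    have h1 : Y = ⊥ := Subgroup.eq_bot_of_card_eq Y hcard
    have h2 : (Finset.univ.filter fun x : Q => x ∈ Y) = {1} := by
      ext x
      simp [h1]
    rw [h2, Finset.sum_singleton]
    have h3 := card_le_cc_mul (⊥ : Subgroup Q) (1 : Q) (by simp)
    simpa using h3
  | succ k ih =>
    intro Y hY hcard
    obtain ⟨Y', hY', -, h1, h2⟩ := exists_normal_card hQ (N := ⊥) (M := Y) inferInstance hY bot_le k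
      (by
        rw [hcard]
        simp only [Subgroup.card_bot, mul_one]
        exact Nat.pow_le_pow_right hp.out.pos (Nat.le_succ k))
    rw [Subgroup.card_bot, mul_one] at h2
    have hlt : Y' < Y := by
      refine lt_of_le_of_ne h1 ?_
      rintro rfl
      rw [hcard] at h2
      have := Nat.pow_right_injective hp.out.two_le h2
      omega
    obtain ⟨K, hK, h3, h4, h5, h6⟩ := exists_succ_normal hQ hY' hY hlt
    have hKY : K = Y := Subgroup.eq_of_le_of_card_ge h4 (by rw [h5, h2, hcard, pow_succ']) 
    rw [hKY] at h6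
    have ih' := ih Y' hY' h2
    have hsplit : ∑ x ∈ Finset.univ.filter (fun x : Q => x ∈ Y), cc x =
        ∑ x ∈ Finset.univ.filter (fun x : Q => x ∈ Y'), cc x +
        ∑ x ∈ Finset.univ.filter (fun x : Q => x ∈ Y ∧ x ∉ Y'), cc x := by
      rw [← Finset.sum_union]
      · refine Finset.sum_congr ?_ fun _ _ => rfl
        ext x
        simp only [Finset.mem_filter, Finset.mem_univ, true_and, Finset.mem_union]
        constructor
        · intro hx
          by_cases hx' : x ∈ Y'
          · exact Or.inl hx'
          · exact Or.inr ⟨hx, hx'⟩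
        · rintro (hx | hx)
          · exact h1 hx
          · exact hx.1
      · rw [Finset.disjoint_left]
        intro x hx hx'
        simp only [Finset.mem_filter, Finset.mem_univ, true_and] at hx hx'
        exact hx'.2 hx
    have hcard2 : (Finset.univ.filter fun x : Q => x ∈ Y ∧ x ∉ Y').card =
        (p - 1) * Nat.card Y' := by
      have h7 : (Finset.univ.filter fun x : Q => x ∈ Y).card =
          (Finset.univ.filter fun x : Q => x ∈ Y').card +
          (Finset.univ.filter fun x : Q => x ∈ Y ∧ x ∉ Y').card := by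
        rw [← Finset.card_union_of_disjoint]
        · congr 1
          ext x
          simp only [Finset.mem_filter, Finset.mem_univ, true_and, Finset.mem_union]
          constructor
          · intro hx
            by_cases hx' : x ∈ Y'
            · exact Or.inl hx'
            · exact Or.inr ⟨hx, hx'⟩
          · rintro (hx | hx)
            · exact h1 hx
            · exact hx.1
        · rw [Finset.disjoint_left]
          intro x hx hx'
          simp only [Finset.mem_filter, Finset.mem_univ, true_and] at hx hx'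
          exact hx'.2 hx
      rw [card_filter_mem, card_filter_mem, hcard, h2] at h7
      rw [h2, Nat.sub_mul, one_mul, ← pow_succ']
      omega
    have hge : Nat.card Q * (p - 1) ≤
        ∑ x ∈ Finset.univ.filter (fun x : Q => x ∈ Y ∧ x ∉ Y'), cc x := by
      have h7 : ∀ x ∈ Finset.univ.filter (fun x : Q => x ∈ Y ∧ x ∉ Y'),
          Nat.card Q ≤ cc x * Nat.card Y' := by
        intro x hx
        simp only [Finset.mem_filter, Finset.mem_univ, true_and] at hx
        refine card_le_cc_mul Y' x fun g => ?_
        have h8 : ⁅g, x⁆ ∈ Y' := by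
          rw [← commutatorElement_inv]
          exact inv_mem (h6 (commutator_mem_commutator hx.1 (mem_top g)))
        exact h8
      have h8 := Finset.sum_le_sum h7
      rw [Finset.sum_const, ← Finset.sum_mul, hcard2, smul_eq_mul] at h8
      have h9 : 0 < Nat.card Y' := Nat.card_pos
      apply Nat.le_of_mul_le_mul_right _ h9
      refine le_trans (le_of_eq ?_) h8
      ring
    rw [hsplit]
    calc Nat.card Q * (1 + (p - 1) * (k + 1)) =
        Nat.card Q * (1 + (p - 1) * k) + Nat.card Q * (p - 1) := by ring
      _ ≤ _ := Nat.add_le_add ih' hge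

/-- The class count of step 5. -/
theorem kk_ge (hQ : IsPGroup p Q) {j F : ℕ} (hj : Nat.card Q = p ^ (j + 2))
    (hF : ∀ x : Q, p ^ (F + 2) ≤ cc x) :
    1 + (p - 1) * j + (p ^ 2 - 1) * p ^ F ≤ kk Q := by
  classical
  obtain ⟨Y, hY, -, -, h2⟩ := exists_normal_card hQ (N := ⊥) (M := ⊤) inferInstance inferInstance
    bot_le j (by
      rw [Subgroup.card_top, hj, Subgroup.card_bot, mul_one]
      exact Nat.pow_le_pow_right hp.out.pos (by omega))
  rw [Subgroup.card_bot, mul_one] at h2
  have h3 := sum_inside hQ j Y hY h2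
  have h4 : ∑ x : Q, cc x = ∑ x ∈ Finset.univ.filter (fun x : Q => x ∈ Y), cc x +
      ∑ x ∈ Finset.univ.filter (fun x : Q => ¬ x ∈ Y), cc x :=
    (Finset.sum_filter_add_sum_filter_not _ _ _).symm
  have h5 : (Finset.univ.filter fun x : Q => ¬ x ∈ Y).card = (p ^ 2 - 1) * p ^ j := by
    have h6 := Finset.card_filter_add_card_filter_not (s := (Finset.univ : Finset Q))
      (fun x : Q => x ∈ Y)
    rw [card_filter_mem, h2, Finset.card_univ, ← Nat.card_eq_fintype_card, hj] at h6
    rw [Nat.sub_mul, one_mul, ← pow_add, add_comm 2 j]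
    omega
  have h6 : Nat.card Q * ((p ^ 2 - 1) * p ^ F) ≤
      ∑ x ∈ Finset.univ.filter (fun x : Q => ¬ x ∈ Y), cc x := by
    have h7 : ∀ x ∈ Finset.univ.filter (fun x : Q => ¬ x ∈ Y), p ^ (F + 2) ≤ cc x :=
      fun x _ => hF x
    have h8 := Finset.sum_le_sum h7
    rw [Finset.sum_const, h5, smul_eq_mul] at h8
    refine le_trans (le_of_eq ?_) h8
    rw [hj]
    ring
  have h7 := kk_mul_card (G := Q)
  have h8 : 0 < Nat.card Q := Nat.card_pos
  apply Nat.le_of_mul_le_mul_right _ h8
  rw [h7, h4]
  calc (1 + (p - 1) * j + (p ^ 2 - 1) * p ^ F) * Nat.card Q =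
      Nat.card Q * (1 + (p - 1) * j) + Nat.card Q * ((p ^ 2 - 1) * p ^ F) := by ring
    _ ≤ _ := Nat.add_le_add h3 h6

/-- Counting the classes in a normal subgroup. -/
theorem pow_le_kk_mul_index (N : Subgroup Q) (c : ℕ) (h : ∀ x ∈ N, c ≤ cc x) :
    c ≤ kk Q * N.index := by
  classical
  have h1 : Nat.card N * c ≤ ∑ x ∈ Finset.univ.filter (fun x : Q => x ∈ N), cc x := by
    have h7 : ∀ x ∈ Finset.univ.filter (fun x : Q => x ∈ N), c ≤ cc x := by
      intro x hx
      simp only [Finset.mem_filter, Finset.mem_univ, true_and] at hx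
      exact h x hx
    have h8 := Finset.sum_le_sum h7
    rwa [Finset.sum_const, card_filter_mem, smul_eq_mul] at h8
  have h2 : ∑ x ∈ Finset.univ.filter (fun x : Q => x ∈ N), cc x ≤ ∑ x : Q, cc x :=
    Finset.sum_le_sum_of_subset (Finset.filter_subset _ _)
  rw [← kk_mul_card, ← card_mul_index_eq N] at h2
  have h3 : 0 < Nat.card N := Nat.card_pos
  apply Nat.le_of_mul_le_mul_left _ h3
  calc Nat.card N * c ≤ kk Q * (Nat.card N * N.index) := h1.trans h2
    _ = _ := by ring

/-- Some centralizer is at most the class number. -/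
theorem exists_cc_le : ∃ x : Q, cc x ≤ kk Q := by
  by_contra hcon
  push Not at hcon
  have h1 : ∑ _x : Q, kk Q < ∑ x : Q, cc x :=
    Finset.sum_lt_sum_of_nonempty Finset.univ_nonempty fun x _ => hcon x
  rw [Finset.sum_const, ← kk_mul_card, Finset.card_univ, smul_eq_mul,
    Nat.card_eq_fintype_card, mul_comm] at h1
  exact lt_irrefl _ h1

end Count

end Pool.Agent.Abund
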