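import Pool.Agent.Lib_helper36.Abund.Series
import Pool.Agent.Lib_helper36.Abund.Count

/-!
# Bounds on the ranks of the layers, and the numerical inequality (I)
-/

set_option autoImplicit false

namespace Pool.Agent.Abund

open Subgroup
open scoped commutatorElement

section Bounds

variable {p : ℕ} [hp : Fact p.Prime] {G : Type*} [Group G] [Finite G]

/-- `lv p N = log_p |G : N|`. -/
noncomputable def lv (p : ℕ) (N : Subgroup G) : ℕ := Nat.log p N.index

lemma index_eq (hG : IsPGroup p G) (N : Subgroup G) : N.index = p ^ lv p N := by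
  obtain ⟨j, hj⟩ := hG.index N
  rw [lv, hj, Nat.log_pow hp.out.one_lt]

lemma lv_of_index {N : Subgroup G} {j : ℕ} (h : N.index = p ^ j) : lv p N = j := by
  rw [lv, h, Nat.log_pow hp.out.one_lt]

lemma lv_anti (hG : IsPGroup p G) {N M : Subgroup G} (h : N ≤ M) : lv p M ≤ lv p N := by
  have h1 : M.index ≤ N.index :=
    Nat.le_of_dvd (Nat.pos_of_ne_zero index_ne_zero_of_finite) (index_dvd_of_le h)
  rw [index_eq hG, index_eq hG] at h1
  exact (Nat.pow_le_pow_iff_right hp.out.one_lt).1 h1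

lemma lv_add (hG : IsPGroup p G) {N M : Subgroup G} {k : ℕ}
    (h : Nat.card M = p ^ k * Nat.card N) : lv p N = lv p M + k := by
  apply lv_of_index
  have h1 := card_mul_index_eq N
  rw [← card_mul_index_eq M, h, index_eq hG M] at h1
  apply Nat.eq_of_mul_eq_mul_left (Nat.card_pos : 0 < Nat.card N)
  rw [h1, pow_add]
  ring

lemma card_eq_lv (hG : IsPGroup p G) {N M : Subgroup G} (h : N ≤ M) :
    Nat.card M = p ^ (lv p N - lv p M) * Nat.card N := by
  obtain ⟨k, hk⟩ := exists_card_eq hG h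
  have h1 := lv_add hG hk
  rw [hk]
  congr 2
  omega

lemma lv_lt (hG : IsPGroup p G) {N M : Subgroup G} (h : N < M) : lv p M + 1 ≤ lv p N := by
  have h1 := mul_card_le_of_lt hG h
  rw [card_eq_lv hG h.le] at h1
  by_contra hcon
  have h2 : lv p N - lv p M = 0 := by omega
  rw [h2, pow_zero, one_mul] at h1
  have h3 : 0 < Nat.card N := Nat.card_pos
  have h4 := hp.out.one_lt
  nlinarith

lemma lv_top : lv p (⊤ : Subgroup G) = 0 := lv_of_index (by simp)

lemma psi_nonneg (hG : IsPGroup p G) (N : Subgroup G) [N.Normal] : 0 ≤ psi p N := by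
  have h := psi_mono hG (le_top : N ≤ ⊤)
  rwa [psi_top] at h

lemma psi_le_bot (hG : IsPGroup p G) (N : Subgroup G) [N.Normal] : psi p N ≤ psi p (⊥ : Subgroup G) :=
  psi_mono hG bot_le

lemma psi_lam_step (hG : IsPGroup p G) (i : ℕ) :
    psi p (lam G p i) + (((lv p (lam G p (i + 1)) : ℤ) - lv p (lam G p i)) - 2) * p * (p - 1) ^ 2 ≤
      psi p (lam G p (i + 1)) := by
  have h1 := card_eq_lv hG (lam_succ_le (G := G) p i)
  have h2 := psi_gap hG (lam G p (i + 1)) (lam G p i) (lam_succ_le p i) h1 (comm_top_le p i)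
  have h3 := lv_anti hG (lam_succ_le (G := G) p i)
  rwa [Nat.cast_sub h3] at h2

lemma psi_lam_sum (hG : IsPGroup p G) (m t : ℕ) :
    psi p (lam G p m) +
      (((lv p (lam G p (m + t)) : ℤ) - lv p (lam G p m)) - 2 * t) * p * (p - 1) ^ 2 ≤
      psi p (lam G p (m + t)) := by
  induction t with
  | zero => simp
  | succ t ih =>
    have h := psi_lam_step hG (m + t)
    rw [← add_assoc]
    push_cast
    nlinarith

lemma arith_div {a : ℕ} {X : ℤ}
    (h : X * p * (p - 1) ^ 2 ≤ a * ((p : ℤ) ^ 2 - 1) * (p - 1)) : X ≤ 2 * a := by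
  have hp2 : (2 : ℤ) ≤ p := by exact_mod_cast hp.out.two_le
  have ha : (0 : ℤ) ≤ a := by positivity
  have h1 : (X * p) * (p - 1) ^ 2 ≤ (a * ((p : ℤ) + 1)) * (p - 1) ^ 2 := by
    calc (X * p) * ((p : ℤ) - 1) ^ 2 = X * p * (p - 1) ^ 2 := by ring
      _ ≤ _ := h
      _ = _ := by ring
  have h2 : X * p ≤ a * ((p : ℤ) + 1) := le_of_mul_le_mul_right h1 (by
    have : (0 : ℤ) < p - 1 := by linarith
    positivity)
  by_contra hcon
  push Not at hcon
  nlinarith

/-- The rank sum bound. -/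
theorem lv_lam_le (hG : IsPGroup p G) {a : ℕ}
    (hA : psi p (⊥ : Subgroup G) ≤ a * ((p : ℤ) ^ 2 - 1) * (p - 1)) (m t : ℕ) :
    lv p (lam G p (m + t)) ≤ lv p (lam G p m) + 2 * t + 2 * a := by
  have h1 := psi_lam_sum hG m t
  have h2 := psi_nonneg hG (lam G p m)
  have h3 := psi_le_bot hG (lam G p (m + t))
  have h4 := arith_div (p := p) (a := a)
    (X := (((lv p (lam G p (m + t)) : ℤ) - lv p (lam G p m)) - 2 * t)) (by linarith)
  have h5 : ((lv p (lam G p (m + t)) : ℤ)) ≤ lv p (lam G p m) + 2 * t + 2 * a := by linarith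
  exact_mod_cast h5

theorem lv_lam_le' (hG : IsPGroup p G) {a : ℕ}
    (hA : psi p (⊥ : Subgroup G) ≤ a * ((p : ℤ) ^ 2 - 1) * (p - 1)) (i : ℕ) :
    lv p (lam G p i) ≤ 2 * i + 2 * a := by
  have h := lv_lam_le hG hA 0 i
  rw [zero_add, lam_zero, lv_top] at h
  linarith

/-- Upper bound for the class number of quotients. -/
theorem two_mul_kk_le (hG : IsPGroup p G) {a : ℕ}
    (hA : psi p (⊥ : Subgroup G) ≤ a * ((p : ℤ) ^ 2 - 1) * (p - 1)) (N : Subgroup G) [N.Normal] :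
    2 * (kk (G ⧸ N) : ℤ) ≤
      ((p : ℤ) ^ 2 - 1) * lv p N + 2 + 2 * (a * ((p : ℤ) ^ 2 - 1) * (p - 1)) := by
  have h1 := psi_le_bot hG N
  rw [psi_eq N (index_eq hG N)] at h1
  have h2 := two_mul_hh_le p (lv p N) hp.out.pos
  linarith

/-- Inequality (I). -/
theorem ineq_I (hG : IsPGroup p G) {a : ℕ}
    (hA : psi p (⊥ : Subgroup G) ≤ a * ((p : ℤ) ^ 2 - 1) * (p - 1)) (N : Subgroup G) [N.Normal]
    {j F : ℕ} (hj : lv p N = j + 2) (hF : ∀ x : G ⧸ N, p ^ (F + 2) ≤ cc x) :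
    2 * ((p : ℤ) + 1) * p ^ F ≤ (p - 1) * j + 2 * (p + 1) + 2 * a * ((p : ℤ) ^ 2 - 1) := by
  have : Fintype (G ⧸ N) := Fintype.ofFinite _
  have h1 := kk_ge (hG.to_quotient N) (j := j) (F := F) (by
    have h2 : Nat.card (G ⧸ N) = N.index := rfl
    rw [h2, index_eq hG N, hj]) hF
  have h2 := two_mul_kk_le hG hA N
  have hp2 : (2 : ℤ) ≤ p := by exact_mod_cast hp.out.two_le
  have h3 : (1 + ((p : ℤ) - 1) * j + ((p : ℤ) ^ 2 - 1) * p ^ F) ≤ kk (G ⧸ N) := by
    have h4 := (Nat.cast_le (α := ℤ)).2 h1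
    rw [Nat.cast_add, Nat.cast_add, Nat.cast_mul, Nat.cast_mul, cast_sq_sub_one p hp.out.pos,
      Nat.cast_sub hp.out.pos] at h4
    push_cast at h4
    exact h4
  rw [hj] at h2
  push_cast at h2
  have h4 : (0 : ℤ) < p - 1 := by linarith
  have h5 : (p - 1 : ℤ) * (2 * ((p : ℤ) + 1) * p ^ F) ≤
      (p - 1) * ((p - 1) * j + 2 * (p + 1) + 2 * a * ((p : ℤ) ^ 2 - 1)) := by
    nlinarith
  exact le_of_mul_le_mul_left h5 h4

end Bounds

end Pool.Agent.Abund
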