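import Pool.Agent.Lib_helper36.Abund.Class

/-!
# Chains of normal subgroups in a finite `p`-group
-/

set_option autoImplicit false

namespace Pool.Agent.Abund

open Subgroup

section Chain

variable {p : ℕ} [hp : Fact p.Prime] {G : Type*} [Group G] [Finite G]

lemma exists_central_order_p (hG : IsPGroup p G) {M : Subgroup G} (hM : M.Normal)
    (h : M ≠ ⊥) : ∃ z : G, z ∈ M ∧ z ∈ center G ∧ orderOf z = p := by
  have hnt : Nontrivial M := (Subgroup.nontrivial_iff_ne_bot M).2 h
  have h1 := (hG.of_equiv ConjAct.toConjAct).exists_fixed_point_of_prime_dvd_card_of_fixed_point M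
  have dvd : p ∣ Nat.card M := by
    obtain ⟨n, hn0, hn⟩ := (hG.to_subgroup M).nontrivial_iff_card.mp hnt
    exact hn.symm ▸ dvd_pow_self _ (ne_of_gt hn0)
  obtain ⟨b, hb, hne⟩ := h1 dvd (a := (1 : M)) (fun g => by simp)
  have hbc : (b : G) ∈ center G := by
    rw [mem_center_iff]
    intro g
    have h2 := congrArg (Subtype.val) (hb (ConjAct.toConjAct g))
    have h3 : g * (b : G) * g⁻¹ = b := h2
    calc g * (b : G) = g * b * g⁻¹ * g := by group
      _ = b * g := by rw [h3]
  have hz : Nontrivial (M ⊓ center G : Subgroup G) :=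
    ⟨⟨1, ⟨(b : G), b.2, hbc⟩, fun hh => hne (Subtype.ext (by
      have h5 := congrArg (fun u : (M ⊓ center G : Subgroup G) => (u : G)) hh
      exact h5))⟩⟩
  have dvd2 : p ∣ Nat.card (M ⊓ center G : Subgroup G) := by
    obtain ⟨n, hn0, hn⟩ := (hG.to_subgroup (M ⊓ center G)).nontrivial_iff_card.mp hz
    exact hn.symm ▸ dvd_pow_self _ (ne_of_gt hn0)
  obtain ⟨z, hz⟩ := exists_prime_orderOf_dvd_card' p dvd2
  exact ⟨z, z.2.1, z.2.2, by rw [Subgroup.orderOf_coe, hz]⟩

omit [Finite G] in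
lemma card_mul_index_eq (N : Subgroup G) : Nat.card N * N.index = Nat.card G :=
  N.card_mul_index

lemma exists_succ_normal (hG : IsPGroup p G) {N M : Subgroup G} (hN : N.Normal)
    (hM : M.Normal) (h : N < M) :
    ∃ K : Subgroup G, K.Normal ∧ N ≤ K ∧ K ≤ M ∧ Nat.card K = p * Nat.card N ∧
      ⁅K, (⊤ : Subgroup G)⁆ ≤ N := by
  have hMn : (M.map (QuotientGroup.mk' N)).Normal := hM.map _ (QuotientGroup.mk'_surjective N)
  have hne : M.map (QuotientGroup.mk' N) ≠ ⊥ := by
    intro h1
    rw [Subgroup.map_eq_bot_iff, QuotientGroup.ker_mk'] at h1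
    exact absurd h1 (not_le_of_gt h)
  obtain ⟨z, hzM, hzc, hzo⟩ := exists_central_order_p (hG.to_quotient N) hMn hne
  have hsurj := QuotientGroup.mk'_surjective N
  have hKn : (zpowers z).Normal := by
    constructor
    intro a ha g
    have hac : a ∈ center (G ⧸ N) := (zpowers_le.2 hzc) ha
    rw [mem_center_iff.1 hac g, mul_assoc, mul_inv_cancel, mul_one]
    exact ha
  have hle : N ≤ (zpowers z).comap (QuotientGroup.mk' N) := by
    intro n hn
    rw [mem_comap]
    have : QuotientGroup.mk' N n = 1 := (QuotientGroup.eq_one_iff n).2 hn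
    rw [this]
    exact one_mem _
  refine ⟨(zpowers z).comap (QuotientGroup.mk' N), hKn.comap _, hle, ?_, ?_, ?_⟩
  · intro x hx
    rw [mem_comap] at hx
    have h2 : QuotientGroup.mk' N x ∈ M.map (QuotientGroup.mk' N) := (zpowers_le.2 hzM) hx
    obtain ⟨y, hy, hyx⟩ := h2
    have h3 : y⁻¹ * x ∈ N := QuotientGroup.eq.1 hyx
    have h4 := M.mul_mem hy (h.le h3)
    simpa using h4
  · have h1 := card_mul_index_eq ((zpowers z).comap (QuotientGroup.mk' N))
    rw [index_comap_of_surjective _ hsurj] at h1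
    have h2 := card_mul_index_eq (zpowers z)
    rw [Nat.card_zpowers, hzo] at h2
    have h3 := card_mul_index_eq N
    have h4 : Nat.card (G ⧸ N) = N.index := rfl
    rw [h4] at h2
    have h5 : 0 < (zpowers z).index := Nat.pos_of_ne_zero (index_ne_zero_of_finite)
    apply Nat.eq_of_mul_eq_mul_right h5
    rw [h1, ← h3, ← h2]
    ring
  · rw [commutator_le]
    intro a ha g _
    rw [mem_comap] at ha
    have hac : QuotientGroup.mk' N a ∈ center (G ⧸ N) := (zpowers_le.2 hzc) ha
    rw [← QuotientGroup.ker_mk' N, MonoidHom.mem_ker, map_commutatorElement,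
      commutatorElement_eq_one_iff_mul_comm]
    exact (mem_center_iff.1 hac _).symm

/-- Orders of subgroups of `p`-groups jump by a factor of at least `p`. -/
lemma mul_card_le_of_lt (hG : IsPGroup p G) {A B : Subgroup G} (h : A < B) :
    p * Nat.card A ≤ Nat.card B := by
  obtain ⟨a, ha⟩ := IsPGroup.iff_card.1 (hG.to_subgroup A)
  obtain ⟨b, hb⟩ := IsPGroup.iff_card.1 (hG.to_subgroup B)
  have h1 : Nat.card A < Nat.card B := by
    have := Subgroup.card_le_of_le h.le
    refine lt_of_le_of_ne this ?_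
    intro h2
    exact h.ne (Subgroup.eq_of_le_of_card_ge h.le h2.ge)
  rw [ha, hb] at h1 ⊢
  have h2 : a < b := (Nat.pow_lt_pow_iff_right hp.out.one_lt).1 h1
  rw [← pow_succ']
  exact Nat.pow_le_pow_right hp.out.pos h2

/-- Normal subgroups of every intermediate order. -/
lemma exists_normal_card (hG : IsPGroup p G) {N M : Subgroup G} (hN : N.Normal)
    (hM : M.Normal) (h : N ≤ M) (k : ℕ) (hk : p ^ k * Nat.card N ≤ Nat.card M) :
    ∃ K : Subgroup G, K.Normal ∧ N ≤ K ∧ K ≤ M ∧ Nat.card K = p ^ k * Nat.card N := by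
  induction k with
  | zero => exact ⟨N, hN, le_rfl, h, by simp⟩
  | succ k ih =>
    have hlt : p ^ k * Nat.card N < p ^ (k + 1) * Nat.card N := by
      have h1 : p ^ k < p ^ (k + 1) := Nat.pow_lt_pow_right hp.out.one_lt (Nat.lt_succ_self k)
      exact Nat.mul_lt_mul_of_pos_right h1 Nat.card_pos
    obtain ⟨K, hK, h1, h2, h3⟩ := ih (hlt.le.trans hk)
    have hKM : K < M := by
      refine lt_of_le_of_ne h2 ?_
      rintro rfl
      rw [h3] at hk
      exact absurd hk (not_le_of_gt hlt)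
    obtain ⟨L, hL, h4, h5, h6, -⟩ := exists_succ_normal hG hK hM hKM
    exact ⟨L, hL, h1.trans h4, h5, by rw [h6, h3, pow_succ']; ring⟩

/-- Normal subgroups of every intermediate relative order, counted from above. -/
lemma exists_normal_index (hG : IsPGroup p G) {N M : Subgroup G} (hN : N.Normal)
    (hM : M.Normal) (h : N ≤ M) (k : ℕ) (hk : p ^ k * Nat.card N ≤ Nat.card M) :
    ∃ K : Subgroup G, K.Normal ∧ N ≤ K ∧ K ≤ M ∧ Nat.card M = p ^ k * Nat.card K := by
  obtain ⟨a, ha⟩ := IsPGroup.iff_card.1 (hG.to_subgroup N)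
  obtain ⟨b, hb⟩ := IsPGroup.iff_card.1 (hG.to_subgroup M)
  rw [ha, hb, ← pow_add] at hk
  have h1 : k + a ≤ b := (Nat.pow_le_pow_iff_right hp.out.one_lt).1 hk
  obtain ⟨c, rfl⟩ := Nat.exists_eq_add_of_le h1
  obtain ⟨K, hK, h2, h3, h4⟩ := exists_normal_card hG hN hM h c (by
    rw [ha, hb, ← pow_add]
    exact Nat.pow_le_pow_right hp.out.pos (by omega))
  refine ⟨K, hK, h2, h3, ?_⟩
  rw [h4, ha, hb, ← pow_add, ← pow_add]
  congr 1
  omega

/-- Nakayama's lemma for normal subgroups of a finite `p`-group. -/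
lemma nakayama_aux (hG : IsPGroup p G) {X N : Subgroup G} (hX : X.Normal) (hN : N.Normal)
    (h : ¬ N ≤ X) : ∃ K : Subgroup G, K.Normal ∧ X ≤ K ∧ ¬ N ≤ K ∧ ⁅N, (⊤ : Subgroup G)⁆ ≤ K ∧
      ∀ x ∈ N, x ^ p ∈ K := by
  have hXN : (X ⊔ N).Normal := by infer_instance
  -- choose `K` of index `p` in `X ⊔ N`
  have hlt : X < X ⊔ N := lt_of_le_of_ne le_sup_left (fun h1 => h (by rw [h1]; exact le_sup_right))
  obtain ⟨K, hK, h1, h2, h3⟩ := exists_normal_index hG hX hXN hlt.le 1 (by
    rw [pow_one]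
    exact mul_card_le_of_lt hG hlt)
  rw [pow_one] at h3
  have hKlt : K < X ⊔ N := by
    refine lt_of_le_of_ne h2 ?_
    intro h4
    rw [← h4] at h3
    have h5 : 0 < Nat.card K := Nat.card_pos
    have h6 := hp.out.one_lt
    nlinarith
  obtain ⟨L, hL, h4, h5, h6, h7⟩ := exists_succ_normal hG hK hXN hKlt
  have hLe : L = X ⊔ N := Subgroup.eq_of_le_of_card_ge h5 (by rw [h6, h3])
  have hnK : ¬ N ≤ K := fun h8 => absurd (sup_le h1 h8) (not_le_of_gt hKlt)
  refine ⟨K, hK, h1, hnK, ?_, ?_⟩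
  · rw [hLe] at h7
    exact (commutator_mono le_sup_right le_rfl).trans h7
  · intro x hx
    have hxL : x ∈ L := by
      rw [hLe]
      exact (le_sup_right : N ≤ X ⊔ N) hx
    -- the quotient `L / K` has order `p`
    have h8 : (K.subgroupOf L).index = p := by
      have h9 : Nat.card (K.subgroupOf L) = Nat.card K :=
        Nat.card_congr (Subgroup.subgroupOfEquivOfLe h4).toEquiv
      have h10 := (K.subgroupOf L).card_mul_index
      rw [h9, h6, mul_comm p] at h10
      exact Nat.eq_of_mul_eq_mul_left Nat.card_pos h10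
    have hKL : (K.subgroupOf L).Normal := hK.subgroupOf L
    have h11 : (⟨x, hxL⟩ : L) ^ p ∈ K.subgroupOf L := by
      rw [← h8]
      exact Subgroup.pow_index_mem (K.subgroupOf L) _
    exact h11

end Chain

end Pool.Agent.Abund
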