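import Pool.Agent.Lib_helper36.Abund.Hall

/-!
# Class numbers and centralizers: elementary lemmas
-/

set_option autoImplicit false

namespace Pool.Agent.Abund

open Finset

section Surj

variable {G H : Type*} [Group G] [Group H]

lemma kk_pos [Finite G] : 0 < kk G := by
  have : Nonempty (ConjClasses G) := ⟨1⟩
  exact Nat.card_pos

lemma kk_surj [Finite G] (φ : G →* H) (hφ : Function.Surjective φ) (K : Subgroup G)
    (hK : K ≤ φ.ker) (hc : K ≤ Subgroup.center G) : kk H + Nat.card K ≤ kk G + 1 := by
  classical
  have hfin : Finite H := Finite.of_surjective φ hφ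
  have hs : Function.Surjective (ConjClasses.map φ) := ConjClasses.map_surjective hφ
  let f : {c : ConjClasses H // c ≠ 1} ⊕ K → ConjClasses G := fun u => match u with
    | Sum.inl c => Function.surjInv hs c.1
    | Sum.inr z => ConjClasses.mk (z : G)
  have hmapK : ∀ z : K, ConjClasses.map φ (ConjClasses.mk (z : G)) = 1 := by
    intro z
    have h1 : φ z = 1 := hK z.2
    show ConjClasses.mk (φ z) = 1
    rw [h1]
    rfl
  have hf : Function.Injective f := by
    rintro (c | z) (c' | z') h
    · have h1 : Function.surjInv hs c.1 = Function.surjInv hs c'.1 := h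
      have h2 := congrArg (ConjClasses.map φ) h1
      rw [Function.surjInv_eq hs, Function.surjInv_eq hs] at h2
      rw [Subtype.ext h2]
    · exfalso
      have h1 : Function.surjInv hs c.1 = ConjClasses.mk (z' : G) := h
      have h2 := congrArg (ConjClasses.map φ) h1
      rw [Function.surjInv_eq hs, hmapK] at h2
      exact c.2 h2
    · exfalso
      have h1 : ConjClasses.mk (z : G) = Function.surjInv hs c'.1 := h
      have h2 := congrArg (ConjClasses.map φ) h1
      rw [Function.surjInv_eq hs, hmapK] at h2
      exact c'.2 h2.symm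
    · have h1 : ConjClasses.mk (z : G) = ConjClasses.mk (z' : G) := h
      rw [ConjClasses.mk_eq_mk_iff_isConj, isConj_iff] at h1
      obtain ⟨c, hcc⟩ := h1
      have h2 : (z : G) = z' := by
        have h3 := Subgroup.mem_center_iff.1 (hc z.2) c
        rw [h3, mul_assoc, mul_inv_cancel, mul_one] at hcc
        exact hcc
      rw [Subtype.ext h2]
  have h1 := Nat.card_le_card_of_injective f hf
  rw [Nat.card_sum] at h1
  have h2 : Nat.card {c : ConjClasses H // c ≠ 1} = kk H - 1 := by
    have : Fintype (ConjClasses H) := Fintype.ofFinite _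
    rw [kk, Nat.card_eq_fintype_card, Nat.card_eq_fintype_card]
    simp
  have h3 : 0 < kk H := kk_pos
  rw [h2] at h1
  change kk H - 1 + Nat.card K ≤ kk G at h1
  omega

lemma kk_equiv (e : G ≃* H) : kk G = kk H := by
  refine Nat.card_congr ⟨ConjClasses.map e.toMonoidHom, ConjClasses.map e.symm.toMonoidHom, ?_, ?_⟩
  · intro c
    obtain ⟨x, rfl⟩ := ConjClasses.mk_surjective c
    show ConjClasses.mk (e.symm (e x)) = _
    simp
  · intro c
    obtain ⟨x, rfl⟩ := ConjClasses.mk_surjective c
    show ConjClasses.mk (e (e.symm x)) = _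
    simp

lemma kk_of_subsingleton [Subsingleton G] : kk G = 1 := by
  rw [kk, Nat.card_eq_one_iff_unique]
  constructor
  · constructor
    intro a b
    obtain ⟨x, rfl⟩ := ConjClasses.mk_surjective a
    obtain ⟨y, rfl⟩ := ConjClasses.mk_surjective b
    rw [Subsingleton.elim x y]
  · exact ⟨1⟩

end Surj

section Sum

variable {G : Type*} [Group G]

/-- The order of the centralizer of `x`. -/
noncomputable def cc (x : G) : ℕ := Nat.card (Subgroup.centralizer ({x} : Set G))

lemma kk_mul_card [Fintype G] : kk G * Nat.card G = ∑ x : G, cc x := by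
  classical
  rw [kk, ← card_comm_eq_card_conjClasses_mul_card]
  rw [Nat.card_congr (Equiv.subtypeProdEquivSigmaSubtype Commute), Nat.card_sigma]
  refine Finset.sum_congr rfl fun x _ => ?_
  refine Nat.card_congr (Equiv.subtypeEquivRight fun y => ?_)
  rw [Subgroup.mem_centralizer_singleton_iff]
  exact ⟨fun h => h.eq.symm, fun h => h.symm⟩

lemma cc_pos [Finite G] (x : G) : 0 < cc x := Nat.card_pos

/-- If all conjugates of `x` lie in `x N` then `|G| ≤ |C(x)| |N|`. -/
lemma card_le_cc_mul [Finite G] (N : Subgroup G) (x : G)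
    (h : ∀ g : G, g * x * g⁻¹ * x⁻¹ ∈ N) : Nat.card G ≤ cc x * Nat.card N := by
  classical
  -- the conjugacy class of `x` injects in `N`
  have h1 : Nat.card G = Nat.card (Subgroup.centralizer ({x} : Set G)) *
      Nat.card (G ⧸ Subgroup.centralizer ({x} : Set G)) := by
    rw [Subgroup.card_eq_card_quotient_mul_card_subgroup (Subgroup.centralizer ({x} : Set G)),
      mul_comm]
  rw [h1]
  refine Nat.mul_le_mul_left _ ?_
  let f : G ⧸ Subgroup.centralizer ({x} : Set G) → N := fun c =>
    ⟨c.out * x * c.out⁻¹ * x⁻¹, h _⟩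
  refine Nat.card_le_card_of_injective f ?_
  intro c d hcd
  have h2 : c.out * x * c.out⁻¹ * x⁻¹ = d.out * x * d.out⁻¹ * x⁻¹ := congrArg Subtype.val hcd
  have h3 : c.out * x * c.out⁻¹ = d.out * x * d.out⁻¹ := mul_right_cancel h2
  have h4 : c.out⁻¹ * d.out ∈ Subgroup.centralizer ({x} : Set G) := by
    rw [Subgroup.mem_centralizer_singleton_iff]
    have : c.out⁻¹ * d.out * x = c.out⁻¹ * (d.out * x * d.out⁻¹) * d.out := by group
    rw [this, ← h3]
    group
  have h5 := QuotientGroup.eq.2 h4
  rwa [QuotientGroup.out_eq', QuotientGroup.out_eq'] at h5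

end Sum

end Pool.Agent.Abund
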