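import Mathlib

/-!
# Centralizers of elements acting on abelian normal subgroups
-/

set_option autoImplicit false

namespace Pool.Agent.Abund

open Subgroup

section Add

variable {A : Type*} [AddCommGroup A]

lemma card_comap_le [Finite A] (f : A →+ A) (K : AddSubgroup A) :
    Nat.card (K.comap f) ≤ Nat.card f.ker * Nat.card K := by
  let g : K.comap f →+ K := f.addSubgroupComap K
  have h1 := g.ker.card_mul_index
  rw [← h1, AddSubgroup.index_ker]
  refine Nat.mul_le_mul ?_ ?_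
  · refine Nat.card_le_card_of_injective
      (fun z : g.ker => (⟨((z : K.comap f) : A), ?_⟩ : f.ker)) ?_
    · have h2 := z.2
      rw [AddMonoidHom.mem_ker] at h2 ⊢
      exact congrArg Subtype.val h2
    · intro z w h
      have h2 : (((z : K.comap f) : A)) = ((w : K.comap f) : A) :=
        congrArg (fun u : f.ker => (u : A)) h
      exact Subtype.ext (Subtype.ext h2)
  · exact Nat.card_le_card_of_injective _ (Subtype.val_injective)

lemma card_ker_pow [Finite A] (T : Module.End ℤ A) (k : ℕ) :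
    Nat.card (LinearMap.ker (T ^ k)) ≤ (Nat.card (LinearMap.ker T)) ^ k := by
  induction k with
  | zero =>
    rw [pow_zero, pow_zero]
    apply le_of_eq
    have : LinearMap.ker (1 : Module.End ℤ A) = ⊥ := by
      ext a
      rw [LinearMap.mem_ker, Submodule.mem_bot, Module.End.one_apply]
    rw [this]
    simp
  | succ k ih =>
    have h2 := card_comap_le T.toAddMonoidHom (LinearMap.ker (T ^ k)).toAddSubgroup
    have h1 : Nat.card (LinearMap.ker (T ^ (k + 1))) =
        Nat.card ((LinearMap.ker (T ^ k)).toAddSubgroup.comap T.toAddMonoidHom) := by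
      refine Nat.card_congr (Equiv.subtypeEquivRight fun a => ?_)
      rw [LinearMap.mem_ker, AddSubgroup.mem_comap, pow_succ, Module.End.mul_apply]
      exact Iff.rfl
    rw [h1, pow_succ']
    exact h2.trans (Nat.mul_le_mul_left _ ih)

lemma one_add_pow_eq {R : Type*} [Ring R] (T : R) (n : ℕ) :
    ∃ U : R, (1 + T) ^ n = 1 + n * T + T * T * U := by
  induction n with
  | zero => exact ⟨0, by simp⟩
  | succ n ih =>
    obtain ⟨U, hU⟩ := ih
    refine ⟨n + U + U * T, ?_⟩
    have h : (n : R) * (T * T) = T * T * n := (Nat.cast_commute n (T * T)).eq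
    rw [pow_succ, hU]
    push_cast
    calc (1 + (n : R) * T + T * T * U) * (1 + T) =
        1 + (n + 1) * T + (n * (T * T) + T * T * U + T * T * (U * T)) := by noncomm_ring
      _ = _ := by rw [h]; noncomm_ring

/-- `p T A ≤ (τ ^ p - 1) A`. -/
lemma deep_one {p K : ℕ} (τ : Module.End ℤ A) (hK : ∀ a : A, (p ^ K) • a = 0)
    (hdeep : ∀ a : A, ∃ b : A, (τ - 1) a = (p ^ 2) • b) (a : A) :
    ∃ b : A, p • ((τ - 1) a) = (τ ^ p - 1) b := by
  set T := τ - 1 with hT
  have hτ : 1 + T = τ := by rw [hT]; abel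
  obtain ⟨U, hU⟩ := one_add_pow_eq T p
  rw [hτ] at hU
  have h1 : ∀ a : A, ∃ c : A, p • (T a) = (τ ^ p - 1) a + p • (p • (T c)) := by
    intro a
    obtain ⟨b, hb⟩ := hdeep (U a)
    refine ⟨-b, ?_⟩
    rw [hU]
    have e1 : (1 + (p : Module.End ℤ A) * T + T * T * U - 1 : Module.End ℤ A) a =
        p • (T a) + T (T (U a)) := by
      rw [show (1 + (p : Module.End ℤ A) * T + T * T * U - 1 : Module.End ℤ A) =
        (p : Module.End ℤ A) * T + T * T * U by abel]
      rw [LinearMap.add_apply]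
      congr 1
    rw [e1, hb, map_nsmul, map_neg, pow_two, mul_smul]
    simp
  have h2 : ∀ k : ℕ, ∀ a : A, ∃ b c : A,
      p • (T a) = (τ ^ p - 1) b + (p ^ k) • (p • (T c)) := by
    intro k
    induction k with
    | zero => intro a; exact ⟨0, a, by simp⟩
    | succ k ih =>
      intro a
      obtain ⟨b, c, h3⟩ := ih a
      obtain ⟨d, h4⟩ := h1 c
      refine ⟨b + (p ^ k) • c, d, ?_⟩
      rw [h3]
      nth_rewrite 1 [h4]
      rw [map_add, map_nsmul, smul_add, pow_succ, mul_smul, add_assoc]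
  obtain ⟨b, c, h3⟩ := h2 K a
  rw [hK, add_zero] at h3
  exact ⟨b, h3⟩

lemma deep_iter {p K : ℕ} (τ : Module.End ℤ A) (hK : ∀ a : A, (p ^ K) • a = 0)
    (hdeep : ∀ a : A, ∃ b : A, (τ - 1) a = (p ^ 2) • b) (s : ℕ) :
    ∀ a : A, ∃ b : A, (p ^ s) • ((τ - 1) a) = (τ ^ (p ^ s) - 1) b := by
  induction s with
  | zero => intro a; exact ⟨a, by simp⟩
  | succ s ih =>
    intro a
    obtain ⟨b, hb⟩ := ih a
    have hd : ∀ a : A, ∃ b : A, (τ ^ (p ^ s) - 1) a = (p ^ 2) • b := by
      intro a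
      rw [← mul_geom_sum]
      exact hdeep _
    obtain ⟨c, hc⟩ := deep_one (τ ^ (p ^ s)) hK hd b
    refine ⟨c, ?_⟩
    have e1 : p ^ (s + 1) = p * p ^ s := pow_succ' p s
    have e2 : τ ^ (p ^ (s + 1)) = (τ ^ (p ^ s)) ^ p := by rw [← pow_mul, ← pow_succ]
    rw [e2, ← hc, ← hb, e1, mul_smul]

end Add

section Core

variable {p : ℕ} [hp : Fact p.Prime] {Q : Type*} [Group Q] [Finite Q]

lemma core (hQ : IsPGroup p Q) (V : Subgroup Q) (hV : V.Normal)
    (hcomm : ∀ a ∈ V, ∀ b ∈ V, a * b = b * a) (x : Q) :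
    ∃ e : ℕ, (MulAut.conjNormal x : MulAut V) ^ (p ^ e) = 1 ∧
      p ^ e * Nat.card (centralizer ({x} : Set Q) ⊓ V : Subgroup Q) ≤
        Nat.card (centralizer ({x} : Set Q)) := by
  set φ : Q →* MulAut V := MulAut.conjNormal with hφ
  obtain ⟨k, hk⟩ := (isPGroup_iff_orderOf_dvd_pow.1 hQ) x
  have h1 : orderOf (φ x) ∣ p ^ k := (orderOf_map_dvd φ x).trans hk
  obtain ⟨e, -, he⟩ := (Nat.dvd_prime_pow hp.out).1 h1
  refine ⟨e, by rw [← he]; exact pow_orderOf_eq_one _, ?_⟩
  set C := centralizer ({x} : Set Q) with hC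
  have hxC : x ∈ C := by rw [hC, mem_centralizer_singleton_iff]
  let ψ : C →* MulAut V := φ.comp C.subtype
  have h2 := ψ.ker.card_mul_index
  rw [Subgroup.index_ker] at h2
  rw [← h2, mul_comm]
  have hfinM : Finite (MulAut V) := inferInstance
  refine Nat.mul_le_mul ?_ ?_
  · refine Nat.card_le_card_of_injective
      (fun z : (C ⊓ V : Subgroup Q) => (⟨⟨(z : Q), z.2.1⟩, ?_⟩ : ψ.ker)) ?_
    · rw [MonoidHom.mem_ker]
      ext v
      show ((MulAut.conjNormal (z : Q) : MulAut V) v : Q) = v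
      rw [MulAut.conjNormal_apply, hcomm _ z.2.2 _ v.2, mul_assoc, mul_inv_cancel, mul_one]
    · intro z w h
      have h3 := congrArg (fun u : ψ.ker => ((u : C) : Q)) h
      exact Subtype.ext h3
  · have h3 : zpowers (φ x) ≤ ψ.range := by
      rw [zpowers_le]
      exact ⟨⟨x, hxC⟩, rfl⟩
    have h4 := Subgroup.card_le_of_le h3
    rwa [Nat.card_zpowers, he] at h4

end Core

section Main

universe u

variable {p : ℕ} [hp : Fact p.Prime] {Q : Type u} [Group Q] [Finite Q]

/-- The commutative group structure on a commutative subgroup. -/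
abbrev commGroupOf (V : Subgroup Q) (hcomm : ∀ a ∈ V, ∀ b ∈ V, a * b = b * a) : CommGroup V :=
  { (inferInstance : Group V) with
    mul_comm := fun a b => Subtype.ext (hcomm a a.2 b b.2) }

/-- The action of `x` on `V`, additively. -/
lemma exists_tau (V : Subgroup Q) (hV : V.Normal)
    (hcomm : ∀ a ∈ V, ∀ b ∈ V, a * b = b * a) (x : Q) (k₀ : ℕ)
    (hk₀ : (MulAut.conjNormal x : MulAut V) ^ k₀ = 1) :
    ∃ (A : Type u) (_ : AddCommGroup A) (_ : Finite A) (f : A ≃ V) (τ : Module.End ℤ A),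
      f 0 = 1 ∧ (∀ a b, f (a + b) = f a * f b) ∧ (∀ a, f (-a) = (f a)⁻¹) ∧
      (∀ (n : ℕ) a, f (n • a) = f a ^ n) ∧
      (∀ a, (f (τ a) : Q) = x * f a * x⁻¹) ∧ τ ^ k₀ = 1 := by
  let σ : MulAut V := MulAut.conjNormal x
  let iC : CommGroup V := commGroupOf V hcomm
  let τ : Module.End ℤ (Additive V) := (MonoidHom.toAdditive σ.toMonoidHom).toIntLinearMap
  have hτ : ∀ v : V, τ (Additive.ofMul v) = Additive.ofMul (σ v) := fun v => rfl
  have hτpow : ∀ (k : ℕ) (v : V), (τ ^ k) (Additive.ofMul v) = Additive.ofMul ((σ ^ k) v) := by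
    intro k
    induction k with
    | zero => intro v; rfl
    | succ k ih =>
      intro v
      rw [pow_succ, Module.End.mul_apply, hτ, ih, pow_succ, MulAut.mul_apply]
  refine ⟨Additive V, inferInstance, inferInstance, Additive.toMul, τ, rfl, fun _ _ => rfl,
    fun _ => rfl, fun _ _ => rfl, fun a => ?_, ?_⟩
  · show ((σ (Additive.toMul a) : V) : Q) = _
    exact MulAut.conjNormal_apply x _
  · refine LinearMap.ext fun a => ?_
    have h1 := hτpow k₀ (Additive.toMul a)
    rw [hk₀] at h1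
    rw [Module.End.one_apply]
    exact h1

theorem lemmaJ (hQ : IsPGroup p Q) (V : Subgroup Q) (hV : V.Normal)
    (hcomm : ∀ a ∈ V, ∀ b ∈ V, a * b = b * a) (hexp : ∀ a ∈ V, a ^ p = 1) (x : Q) :
    ∃ e r : ℕ, Nat.card V ≤ p ^ (r * p ^ e) ∧
      p ^ (e + r) ≤ Nat.card (Subgroup.centralizer ({x} : Set Q)) ∧
      ∀ W : Subgroup Q, W ≤ V → (∀ v ∈ V, x * v * x⁻¹ * v⁻¹ ∈ W) →
        Nat.card V ≤ p ^ r * Nat.card W := by
  obtain ⟨e, he, hcent⟩ := core hQ V hV hcomm x
  obtain ⟨r, hr⟩ := IsPGroup.iff_card.1 (hQ.to_subgroup (centralizer ({x} : Set Q) ⊓ V))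
  obtain ⟨A, iA, iF, f, τ, f0, fadd, fneg, fsmul, fτ, hτ⟩ := exists_tau V hV hcomm x _ he
  have hcardA : Nat.card A = Nat.card V := Nat.card_congr f
  have hpA : ∀ a : A, p • a = 0 := by
    intro a
    apply f.injective
    rw [fsmul, f0]
    exact Subtype.ext (hexp _ (f a).2)
  have hp0 : (p : Module.End ℤ A) = 0 := by
    ext a
    have h1 := hpA a
    have h2 : (p : Module.End ℤ A) a = p • a := by
      rw [← nsmul_one, LinearMap.smul_apply, Module.End.one_apply]
    rw [h2, h1]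
    rfl
  set T := τ - 1 with hT
  have hTτ : T + 1 = τ := by rw [hT]; abel
  have hnil : T ^ (p ^ e) = 0 := by
    obtain ⟨u, hu⟩ := (Commute.one_right T).exists_add_pow_prime_pow_eq hp.out e
    rw [hTτ, hτ, hp0, one_pow] at hu
    simpa using hu.symm
  have hTapp : ∀ a : A, (f (T a) : Q) = x * f a * x⁻¹ * (f a : Q)⁻¹ := by
    intro a
    have h1 : T a = τ a + -a := by rw [hT, LinearMap.sub_apply, Module.End.one_apply]; abel
    rw [h1, fadd, fneg, Subgroup.coe_mul, fτ, Subgroup.coe_inv]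
  have hker : Nat.card (LinearMap.ker T) = p ^ r := by
    rw [← hr]
    refine Nat.card_congr ⟨fun a => ⟨f a.1, ?_, (f a.1).2⟩, fun v => ⟨f.symm ⟨v.1, v.2.2⟩, ?_⟩,
      ?_, ?_⟩
    · have h1 : T a.1 = 0 := LinearMap.mem_ker.1 a.2
      have h2 := hTapp a.1
      rw [h1, f0, Subgroup.coe_one] at h2
      show (f a.1 : Q) ∈ centralizer ({x} : Set Q)
      rw [mem_centralizer_singleton_iff]
      have h3 : x * (f a.1 : Q) * x⁻¹ = f a.1 := by
        have := mul_inv_eq_one.1 h2.symm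
        exact this
      calc (f a.1 : Q) * x = x * (f a.1 : Q) * x⁻¹ * x := by rw [h3]
        _ = x * f a.1 := by group
    · rw [LinearMap.mem_ker]
      apply f.injective
      apply Subtype.ext
      rw [hTapp, f0, Equiv.apply_symm_apply, Subgroup.coe_one]
      have h1 : (v.1 : Q) * x = x * v.1 := (mem_centralizer_singleton_iff.1 v.2.1)
      show x * v.1 * x⁻¹ * (v.1 : Q)⁻¹ = 1
      rw [← h1]
      group
    · intro a
      apply Subtype.ext
      show f.symm ⟨(f a.1 : Q), _⟩ = a.1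
      rw [Subtype.coe_eta, Equiv.symm_apply_apply]
    · intro v
      apply Subtype.ext
      show ((f (f.symm ⟨v.1, _⟩) : V) : Q) = v.1
      rw [Equiv.apply_symm_apply]
  refine ⟨e, r, ?_, ?_, ?_⟩
  · have h1 := card_ker_pow T (p ^ e)
    rw [hnil, hker, ← pow_mul] at h1
    have h2 : Nat.card (LinearMap.ker (0 : Module.End ℤ A)) = Nat.card A := by
      rw [LinearMap.ker_zero]
      exact Nat.card_congr (Submodule.topEquiv (R := ℤ) (M := A)).toEquiv
    rw [h2, hcardA] at h1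
    exact h1
  · rw [pow_add, ← hr]
    exact hcent
  · intro W hWV hW
    have h1 : Nat.card A = Nat.card (LinearMap.ker T) * Nat.card (LinearMap.range T) := by
      have h2 := (LinearMap.ker T).card_eq_card_quotient_mul_card
      rw [h2, Nat.card_congr T.quotKerEquivRange.toEquiv]
    rw [← hcardA, h1, hker]
    refine Nat.mul_le_mul_left _ ?_
    refine Nat.card_le_card_of_injective
      (fun b : LinearMap.range T => (⟨(f b.1 : Q), ?_⟩ : W)) ?_
    · obtain ⟨a, ha⟩ := b.2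
      rw [← ha, hTapp]
      exact hW _ (f a).2
    · intro b c h
      have h2 := congrArg (fun u : W => (u : Q)) h
      exact Subtype.ext (f.injective (Subtype.ext h2))

theorem lemmaK (hQ : IsPGroup p Q) (V : Subgroup Q) (hV : V.Normal)
    (hcomm : ∀ a ∈ V, ∀ b ∈ V, a * b = b * a) (x : Q)
    (hdeep : ∀ v ∈ V, ∃ w ∈ V, x * v * x⁻¹ * v⁻¹ = w ^ (p ^ 2)) :
    ∃ s : ℕ, (∀ v ∈ V, x * v ^ (p ^ s) = v ^ (p ^ s) * x) ∧
      p ^ s * Nat.card (Subgroup.centralizer ({x} : Set Q) ⊓ V : Subgroup Q) ≤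
        Nat.card (Subgroup.centralizer ({x} : Set Q)) := by
  obtain ⟨s, hs, hcent⟩ := core hQ V hV hcomm x
  refine ⟨s, ?_, hcent⟩
  obtain ⟨A, iA, iF, f, τ, f0, fadd, fneg, fsmul, fτ, hτ⟩ := exists_tau V hV hcomm x _ hs
  have hTapp : ∀ a : A, (f ((τ - 1) a) : Q) = x * f a * x⁻¹ * (f a : Q)⁻¹ := by
    intro a
    have h1 : (τ - 1) a = τ a + -a := by
      rw [LinearMap.sub_apply, Module.End.one_apply]; abel
    rw [h1, fadd, fneg, Subgroup.coe_mul, fτ, Subgroup.coe_inv]
  obtain ⟨K, hK⟩ := IsPGroup.iff_card.1 (hQ.to_subgroup V)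
  have hKA : ∀ a : A, (p ^ K) • a = 0 := by
    intro a
    apply f.injective
    rw [fsmul, f0, ← hK]
    exact pow_card_eq_one'
  have hd : ∀ a : A, ∃ b : A, (τ - 1) a = (p ^ 2) • b := by
    intro a
    obtain ⟨w, hw, h1⟩ := hdeep (f a) (f a).2
    refine ⟨f.symm ⟨w, hw⟩, ?_⟩
    apply f.injective
    apply Subtype.ext
    rw [hTapp, h1, fsmul, Equiv.apply_symm_apply]
    rfl
  intro v hv
  obtain ⟨b, hb⟩ := deep_iter τ hKA hd s (f.symm ⟨v, hv⟩)
  rw [hτ, sub_self, LinearMap.zero_apply, ← map_nsmul] at hb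
  have h1 := hTapp ((p ^ s) • f.symm ⟨v, hv⟩)
  rw [hb, f0, fsmul, Equiv.apply_symm_apply, Subgroup.coe_one] at h1
  have h2 : x * v ^ (p ^ s) * x⁻¹ = v ^ (p ^ s) := mul_inv_eq_one.1 h1.symm
  calc x * v ^ (p ^ s) = x * v ^ (p ^ s) * x⁻¹ * x := by group
    _ = _ := by rw [h2]

end Main

end Pool.Agent.Abund
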