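import Pool.Agent.Lib_helper36.Abund.Bounds
import Pool.Agent.Lib_helper36.Abund.LemJ

/-!
# The deep case
-/

set_option autoImplicit false
set_option linter.unusedSectionVars false

namespace Pool.Agent.Abund

open Subgroup
open scoped commutatorElement

section Deep

variable {p : ℕ} [hp : Fact p.Prime]

/-- First centralizer bound. -/
theorem cc_ge_one {Q : Type*} [Group Q] [Finite Q] (hQ : IsPGroup p Q) (V : Subgroup Q)
    (hV : V.Normal) (hcomm : ∀ a ∈ V, ∀ b ∈ V, a * b = b * a) (hexp : ∀ a ∈ V, a ^ p = 1)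
    {D E : ℕ} (hD : Nat.card V = p ^ D) (hDE : p ^ E + 1 ≤ D) (x : Q) : p ^ (E + 2) ≤ cc x := by
  obtain ⟨e, r, h1, h2, -⟩ := lemmaJ hQ V hV hcomm hexp x
  rw [hD] at h1
  have h3 : D ≤ r * p ^ e := (Nat.pow_le_pow_iff_right hp.out.one_lt).1 h1
  refine le_trans (Nat.pow_le_pow_right hp.out.pos ?_) h2
  by_contra hcon
  have hr : 1 ≤ r := by
    rcases Nat.eq_zero_or_pos r with h0 | h0
    · rw [h0, zero_mul] at h3
      omega
    · exact h0
  obtain ⟨r', rfl⟩ := Nat.exists_eq_add_of_le hr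
  have h4 : 1 + r' ≤ p ^ r' := by
    have := Nat.lt_pow_self hp.out.one_lt (n := r')
    omega
  have h5 : (1 + r') * p ^ e ≤ p ^ E := by
    calc (1 + r') * p ^ e ≤ p ^ r' * p ^ e := Nat.mul_le_mul_right _ h4
      _ = p ^ (r' + e) := by rw [pow_add]
      _ ≤ p ^ E := Nat.pow_le_pow_right hp.out.pos (by omega)
  omega

lemma aux_two (r : ℕ) (hp2 : 2 ≤ p) : 2 + r ≤ 2 * p ^ r := by
  induction r with
  | zero => simp
  | succ r ih =>
    have h1 : p ^ (r + 1) = p * p ^ r := pow_succ' p r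
    have h2 : 1 ≤ p ^ r := Nat.one_le_pow _ _ (by omega)
    rw [h1]
    nlinarith

/-- Second centralizer bound. -/
theorem cc_ge_two {Q : Type*} [Group Q] [Finite Q] (hQ : IsPGroup p Q) (V W : Subgroup Q)
    (hV : V.Normal) (hcomm : ∀ a ∈ V, ∀ b ∈ V, a * b = b * a) (hexp : ∀ a ∈ V, a ^ p = 1)
    (hWV : W ≤ V) (hW : ∀ v ∈ V, ∀ x : Q, x * v * x⁻¹ * v⁻¹ ∈ W)
    (hcardW : p ^ 2 * Nat.card W ≤ Nat.card V)
    {D E : ℕ} (hD : Nat.card V = p ^ D) (hDE : 2 * p ^ E + 1 ≤ D) (x : Q) :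
    p ^ (E + 3) ≤ cc x := by
  obtain ⟨e, r, h1, h2, h6⟩ := lemmaJ hQ V hV hcomm hexp x
  rw [hD] at h1
  have h3 : D ≤ r * p ^ e := (Nat.pow_le_pow_iff_right hp.out.one_lt).1 h1
  refine le_trans (Nat.pow_le_pow_right hp.out.pos ?_) h2
  by_contra hcon
  have hr : 2 ≤ r := by
    have h7 := h6 W hWV (fun v hv => hW v hv x)
    have h8 : p ^ 2 ≤ p ^ r := Nat.le_of_mul_le_mul_right (hcardW.trans h7) Nat.card_pos
    exact (Nat.pow_le_pow_iff_right hp.out.one_lt).1 h8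
  obtain ⟨r', rfl⟩ := Nat.exists_eq_add_of_le hr
  have h4 : 2 + r' ≤ 2 * p ^ r' := aux_two r' hp.out.two_le
  have h5 : (2 + r') * p ^ e ≤ 2 * p ^ E := by
    calc (2 + r') * p ^ e ≤ (2 * p ^ r') * p ^ e := Nat.mul_le_mul_right _ h4
      _ = 2 * p ^ (r' + e) := by rw [pow_add]; ring
      _ ≤ 2 * p ^ E := Nat.mul_le_mul_left _ (Nat.pow_le_pow_right hp.out.pos (by omega))
  omega

variable {G : Type*} [Group G] [Finite G]

/-- `i` is deep if no `λ_r` with `r ≤ 2 i` lies in `λ_i ^ p`. -/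
def Deep (G : Type*) [Group G] (p i : ℕ) : Prop :=
  ∀ r, i ≤ r → r ≤ 2 * i → ¬ lam G p r ≤ pw p (lam G p i)

theorem deep_card (hG : IsPGroup p G) {i : ℕ} (hi : Deep G p i) (t : ℕ) (ht : t ≤ i + 1) :
    p ^ t * Nat.card (pw p (lam G p i) ⊔ lam G p (2 * i + 1) : Subgroup G) ≤
      Nat.card (pw p (lam G p i) ⊔ lam G p (2 * i + 1 - t) : Subgroup G) := by
  induction t with
  | zero => simp
  | succ t ih =>
    have h1 := ih (by omega)
    have h2 : pw p (lam G p i) ⊔ lam G p (2 * i + 1 - t) <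
        pw p (lam G p i) ⊔ lam G p (2 * i + 1 - (t + 1)) := by
      have e1 : 2 * i + 1 - t = (2 * i + 1 - (t + 1)) + 1 := by omega
      refine lt_of_le_of_ne (sup_le_sup le_rfl (lam_anti p (by omega))) ?_
      intro h3
      apply hi (2 * i + 1 - (t + 1)) (by omega) (by omega)
      apply nakayama hG inferInstance
      rw [← e1, h3]
      exact le_sup_right
    have h3 := mul_card_le_of_lt hG h2
    calc p ^ (t + 1) * Nat.card (pw p (lam G p i) ⊔ lam G p (2 * i + 1) : Subgroup G) =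
        p * (p ^ t * Nat.card (pw p (lam G p i) ⊔ lam G p (2 * i + 1) : Subgroup G)) := by ring
      _ ≤ p * Nat.card (pw p (lam G p i) ⊔ lam G p (2 * i + 1 - t) : Subgroup G) :=
        Nat.mul_le_mul_left _ h1
      _ ≤ _ := h3

theorem deep_card' (hG : IsPGroup p G) {i : ℕ} (hi : Deep G p i) (t : ℕ) (ht : t ≤ i + 1) :
    p ^ t * Nat.card (pw p (lam G p i) ⊔ lam G p (2 * i + 1) : Subgroup G) ≤
      Nat.card (lam G p i) := by
  have h1 := deep_card hG hi (i + 1) le_rfl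
  have e1 : 2 * i + 1 - (i + 1) = i := by omega
  rw [e1, sup_eq_right.2 (pw_le p _)] at h1
  refine le_trans (Nat.mul_le_mul_right _ (Nat.pow_le_pow_right hp.out.pos ht)) h1

lemma pw_sup_le_lam (i : ℕ) : pw p (lam G p i) ⊔ lam G p (2 * i + 1) ≤ lam G p i :=
  sup_le (pw_le p _) (lam_anti p (by omega))

lemma pw_sup_le_lam_succ (i : ℕ) :
    pw p (lam G p i) ⊔ lam G p (2 * i + 1) ≤ lam G p (i + 1) :=
  sup_le (pw_lam_le p i) (lam_anti p (by omega))

lemma quot_comm (N M : Subgroup G) [N.Normal] (h : ⁅M, M⁆ ≤ N) :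
    ∀ a ∈ M.map (QuotientGroup.mk' N), ∀ b ∈ M.map (QuotientGroup.mk' N), a * b = b * a := by
  rintro _ ⟨a, ha, rfl⟩ _ ⟨b, hb, rfl⟩
  have h1 := h (commutator_mem_commutator ha hb)
  rw [← QuotientGroup.ker_mk' N, MonoidHom.mem_ker, map_commutatorElement,
    commutatorElement_eq_one_iff_mul_comm] at h1
  exact h1

lemma quot_exp (N M : Subgroup G) [N.Normal] (h : pw p M ≤ N) :
    ∀ a ∈ M.map (QuotientGroup.mk' N), a ^ p = 1 := by
  rintro _ ⟨a, ha, rfl⟩
  rw [← map_pow]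
  exact (QuotientGroup.eq_one_iff _).2 (h (pow_mem_pw p ha))

lemma card_map_of_card (N M : Subgroup G) [N.Normal] (h : N ≤ M) {c : ℕ}
    (hc : Nat.card M = c * Nat.card N) : Nat.card (M.map (QuotientGroup.mk' N)) = c := by
  have h3 := card_map_mk N M h
  rw [hc] at h3
  exact Nat.eq_of_mul_eq_mul_right Nat.card_pos h3

/-- (C1) -/
theorem ineq_C1 (hG : IsPGroup p G) {a : ℕ}
    (hA : psi p (⊥ : Subgroup G) ≤ a * ((p : ℤ) ^ 2 - 1) * (p - 1)) {i E : ℕ}
    (hi : Deep G p i) (hE : p ^ E ≤ i) :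
    2 * ((p : ℤ) + 1) * p ^ E ≤
      (p - 1) * (lv p (lam G p i) + p ^ E - 1) + 2 * (p + 1) + 2 * a * ((p : ℤ) ^ 2 - 1) := by
  obtain ⟨H, hH, h1, h2, h3⟩ := exists_normal_index hG
    (N := pw p (lam G p i) ⊔ lam G p (2 * i + 1)) (M := lam G p i) inferInstance inferInstance
    (pw_sup_le_lam i) (p ^ E + 1) (deep_card' hG hi _ (by omega))
  have hpos : 1 ≤ p ^ E := Nat.one_le_pow _ _ hp.out.pos
  have h4 : lv p H = (lv p (lam G p i) + p ^ E - 1) + 2 := by
    rw [lv_add hG h3]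
    omega
  have hc : ⁅lam G p i, lam G p i⁆ ≤ H := by
    refine (comm_le p i i).trans (le_trans ?_ h1)
    rw [← two_mul]
    exact le_sup_right
  have h5 : pw p (lam G p i) ≤ H := le_trans le_sup_left h1
  have h6 := ineq_I hG hA H h4 (F := E) (fun x => by
    exact cc_ge_one (hG.to_quotient H) ((lam G p i).map (QuotientGroup.mk' H))
      (Subgroup.Normal.map inferInstance _ (QuotientGroup.mk'_surjective H))
      (quot_comm H _ hc) (quot_exp H _ h5) (card_map_of_card H _ h2 h3) le_rfl x)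
  have h7 : ((lv p (lam G p i) + p ^ E - 1 : ℕ) : ℤ) = lv p (lam G p i) + p ^ E - 1 := by
    rw [Nat.cast_sub (by omega)]
    push_cast
    ring
  rw [h7] at h6
  exact h6

/-- (C2) -/
theorem ineq_C2 (hG : IsPGroup p G) {a : ℕ}
    (hA : psi p (⊥ : Subgroup G) ≤ a * ((p : ℤ) ^ 2 - 1) * (p - 1)) {l E : ℕ}
    (hl : Deep G p l) (hE : 2 * p ^ E ≤ l)
    (hf : lv p (lam G p l) + 2 ≤ lv p (lam G p (l + 1)))
    (hf' : lv p (lam G p (l + 1)) ≤ lv p (lam G p l) + (2 * p ^ E + 1)) :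
    2 * ((p : ℤ) + 1) * p ^ (E + 1) ≤
      (p - 1) * (lv p (lam G p l) + 2 * p ^ E - 1) + 2 * (p + 1) +
        2 * a * ((p : ℤ) ^ 2 - 1) := by
  have h0 := card_eq_lv hG (lam_succ_le (G := G) p l)
  set f := lv p (lam G p (l + 1)) - lv p (lam G p l) with hfdef
  have hf2 : 2 ≤ f := by omega
  have hf3 : f ≤ 2 * p ^ E + 1 := by omega
  have hd := deep_card' hG hl (2 * p ^ E + 1) (by omega)
  have hd2 : p ^ (2 * p ^ E + 1 - f) *
      Nat.card (pw p (lam G p l) ⊔ lam G p (2 * l + 1) : Subgroup G) ≤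
      Nat.card (lam G p (l + 1)) := by
    rw [h0] at hd
    have h1 : p ^ (2 * p ^ E + 1) = p ^ f * p ^ (2 * p ^ E + 1 - f) := by
      rw [← pow_add]
      congr 1
      omega
    rw [h1, mul_assoc] at hd
    exact Nat.le_of_mul_le_mul_left hd (pow_pos hp.out.pos f)
  obtain ⟨H, hH, h1, h2, h3⟩ := exists_normal_index hG
    (N := pw p (lam G p l) ⊔ lam G p (2 * l + 1)) (M := lam G p (l + 1)) inferInstance
    inferInstance (pw_sup_le_lam_succ l) _ hd2
  have h3' : Nat.card (lam G p l) = p ^ (2 * p ^ E + 1) * Nat.card H := by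
    rw [h0, h3, ← mul_assoc, ← pow_add]
    congr 2
    omega
  have hHl : H ≤ lam G p l := h2.trans (lam_succ_le p l)
  have h4 : lv p H = (lv p (lam G p l) + 2 * p ^ E - 1) + 2 := by
    have hpos : 1 ≤ p ^ E := Nat.one_le_pow _ _ hp.out.pos
    rw [lv_add hG h3']
    omega
  have hc : ⁅lam G p l, lam G p l⁆ ≤ H := by
    refine (comm_le p l l).trans (le_trans ?_ h1)
    rw [← two_mul]
    exact le_sup_right
  have h5 : pw p (lam G p l) ≤ H := le_trans le_sup_left h1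
  have hcV := card_map_of_card H _ hHl h3'
  have hcW := card_map_of_card H _ h2 h3
  have h6 := ineq_I hG hA H h4 (F := E + 1) (fun x => by
    refine cc_ge_two (hG.to_quotient H) ((lam G p l).map (QuotientGroup.mk' H))
      ((lam G p (l + 1)).map (QuotientGroup.mk' H))
      (Subgroup.Normal.map inferInstance _ (QuotientGroup.mk'_surjective H))
      (quot_comm H _ hc) (quot_exp H _ h5) (Subgroup.map_mono (lam_succ_le p l)) ?_ ?_
      hcV le_rfl x
    · rintro _ ⟨v, hv, rfl⟩ y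
      obtain ⟨g, rfl⟩ := QuotientGroup.mk'_surjective H y
      refine ⟨⁅g, v⁆, ?_, ?_⟩
      · have h7 := comm_top_le p l (commutator_mem_commutator hv (mem_top g))
        rw [← commutatorElement_inv]
        exact inv_mem h7
      · rw [map_commutatorElement, commutatorElement_def]
    · rw [hcV, hcW, ← pow_add]
      exact Nat.pow_le_pow_right hp.out.pos (by omega))
  have h7 : ((lv p (lam G p l) + 2 * p ^ E - 1 : ℕ) : ℤ) = lv p (lam G p l) + 2 * p ^ E - 1 := by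
    have hpos : 1 ≤ p ^ E := Nat.one_le_pow _ _ hp.out.pos
    rw [Nat.cast_sub (by omega)]
    push_cast
    ring
  rw [h7] at h6
  exact h6

end Deep

end Pool.Agent.Abund
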