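import Pool.Agent.Lib_helper36.Abund.Deep

/-!
# Assembly
-/

set_option autoImplicit false
set_option linter.unusedSectionVars false

namespace Pool.Agent.Abund

open Subgroup
open scoped commutatorElement

section Final

variable {p : ℕ} [hp : Fact p.Prime] {G : Type*} [Group G] [Finite G]

lemma succ_le_pow_self (hp2 : 2 ≤ p) (a : ℕ) : a + 1 ≤ p ^ a := by
  have := Nat.lt_pow_self (n := a) (show 1 < p by omega)
  omega

lemma q_large (hp2 : 2 ≤ p) (a : ℕ) : a * (p + 2) + 2 ≤ p ^ (a + 3) := by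
  have h1 := succ_le_pow_self hp2 a
  have h2 : p ^ (a + 3) = p ^ a * p ^ 3 := pow_add p a 3
  have h3 : p + 2 ≤ p ^ 3 := by nlinarith [Nat.mul_le_mul hp2 hp2]
  have h4 : 2 ≤ p ^ 3 := by nlinarith [Nat.mul_le_mul hp2 hp2]
  have h5 := Nat.mul_le_mul h1 (le_refl (p ^ 3))
  have h6 := Nat.mul_le_mul (le_refl a) h3
  rw [h2]
  nlinarith

theorem exists_shallow (hG : IsPGroup p G) {a : ℕ}
    (hA : psi p (⊥ : Subgroup G) ≤ a * ((p : ℤ) ^ 2 - 1) * (p - 1)) :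
    ∃ i ρ : ℕ, i ≤ p ^ (a + 4) ∧ ρ ≤ i ∧ lam G p (i + ρ) ≤ pw p (lam G p i) := by
  by_contra hcon
  push Not at hcon
  have hp2 := hp.out.two_le
  have hp2' : (2 : ℤ) ≤ p := by exact_mod_cast hp2
  have hdeep : ∀ i, i ≤ p ^ (a + 4) → Deep G p i := by
    intro i hi r hr hr'
    obtain ⟨ρ, rfl⟩ := Nat.exists_eq_add_of_le hr
    exact hcon i ρ hi (by omega)
  have hq := q_large hp2 a
  have hq' : (a : ℤ) * (p + 2) + 2 ≤ (p : ℤ) ^ (a + 3) := by exact_mod_cast hq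
  have hq4 : p ^ (a + 4) = p * p ^ (a + 3) := pow_succ' p (a + 3)
  have hq5 : ((p : ℤ)) ^ (a + 4) = p * p ^ (a + 3) := pow_succ' _ _
  have ha : (0 : ℤ) ≤ a := by positivity
  have h1 : ∀ l, 2 * p ^ (a + 3) ≤ l → l < p ^ (a + 4) →
      lv p (lam G p (l + 1)) ≤ lv p (lam G p l) + 1 := by
    intro l hl hl'
    by_contra hc
    have h2 := lv_lam_le hG hA l 1
    have h3 := lv_lam_le' hG hA l
    have h4 := ineq_C2 hG hA (hdeep l hl'.le) hl (by omega) (by nlinarith)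
    have h5 : ((lv p (lam G p l) : ℕ) : ℤ) ≤ 2 * l + 2 * a := by exact_mod_cast h3
    have h6 : (l : ℤ) + 1 ≤ p * p ^ (a + 3) := by
      rw [← hq5]
      exact_mod_cast hl'
    have h7 : (p : ℤ) ^ (a + 3 + 1) = p * p ^ (a + 3) := pow_succ' _ _
    rw [h7] at h4
    set q : ℤ := (p : ℤ) ^ (a + 3) with hqdef
    have h8 : ((p : ℤ) - 1) * (lv p (lam G p l) + 2 * q - 1) ≤
        (p - 1) * (2 * (p * q - 1) + 2 * a + 2 * q - 1) := by
      apply mul_le_mul_of_nonneg_left _ (by linarith)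
      linarith
    nlinarith
  have h2 : ∀ t, 2 * p ^ (a + 3) + t ≤ p ^ (a + 4) →
      lv p (lam G p (2 * p ^ (a + 3) + t)) ≤ lv p (lam G p (2 * p ^ (a + 3))) + t := by
    intro t
    induction t with
    | zero => intro _; simp
    | succ t ih =>
      intro ht
      have h3 := ih (by omega)
      have h4 := h1 (2 * p ^ (a + 3) + t) (by omega) (by omega)
      have h5 : 2 * p ^ (a + 3) + (t + 1) = 2 * p ^ (a + 3) + t + 1 := by ring
      rw [h5]
      omega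
  have h3 : 2 * p ^ (a + 3) ≤ p ^ (a + 4) := by
    rw [hq4]
    exact Nat.mul_le_mul_right _ hp2
  have h4 := h2 (p ^ (a + 4) - 2 * p ^ (a + 3)) (by omega)
  have h5 : 2 * p ^ (a + 3) + (p ^ (a + 4) - 2 * p ^ (a + 3)) = p ^ (a + 4) := by omega
  rw [h5] at h4
  have h6 := lv_lam_le' hG hA (2 * p ^ (a + 3))
  have h7 := ineq_C1 hG hA (hdeep _ le_rfl) (E := a + 4) le_rfl
  have h8 : ((lv p (lam G p (p ^ (a + 4))) : ℕ) : ℤ) ≤
      (2 * (2 * (p : ℤ) ^ (a + 3)) + 2 * a) + (p * p ^ (a + 3) - 2 * p ^ (a + 3)) := by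
    have h9 : lv p (lam G p (p ^ (a + 4))) + 2 * p ^ (a + 3) ≤
        (2 * (2 * p ^ (a + 3)) + 2 * a) + p * p ^ (a + 3) := by
      rw [← hq4]
      omega
    have h10 := (Nat.cast_le (α := ℤ)).2 h9
    push_cast at h10
    linarith
  rw [hq5] at h7
  set q : ℤ := (p : ℤ) ^ (a + 3) with hqdef
  have h9 : ((p : ℤ) - 1) * (lv p (lam G p (p ^ (a + 4))) + p * q - 1) ≤
      (p - 1) * ((2 * (2 * q) + 2 * a) + (p * q - 2 * q) + p * q - 1) := by
    apply mul_le_mul_of_nonneg_left _ (by linarith)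
    linarith
  nlinarith

/-- Elements of `λ_{n + s ρ}` are `p ^ s`-th powers modulo `N`. -/
lemma exists_pow_mod (N : Subgroup G) [N.Normal] (K : Subgroup G) (hK : ⁅K, K⁆ ≤ N) :
    ∀ y ∈ pw p K, ∃ w ∈ K, QuotientGroup.mk' N y = QuotientGroup.mk' N (w ^ p) := by
  intro y hy
  rw [pw] at hy
  induction hy using Subgroup.closure_induction with
  | mem y hy =>
    obtain ⟨x, hx, rfl⟩ := hy
    exact ⟨x, hx, rfl⟩
  | one => exact ⟨1, one_mem _, by simp⟩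
  | mul y z _ _ ihy ihz =>
    obtain ⟨w, hw, h1⟩ := ihy
    obtain ⟨u, hu, h2⟩ := ihz
    refine ⟨w * u, mul_mem hw hu, ?_⟩
    have h3 : Commute (QuotientGroup.mk' N w) (QuotientGroup.mk' N u) :=
      quot_comm N K hK _ ⟨w, hw, rfl⟩ _ ⟨u, hu, rfl⟩
    rw [map_mul, h1, h2, map_pow, map_pow, map_pow, map_mul, h3.mul_pow]
  | inv y _ ihy =>
    obtain ⟨w, hw, h1⟩ := ihy
    refine ⟨w⁻¹, inv_mem hw, ?_⟩
    rw [map_inv, h1, map_pow, map_pow, map_inv, inv_pow]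

lemma exists_pow_mod_iter {n ρ : ℕ} (h : ∀ k, n ≤ k → lam G p (k + ρ) ≤ pw p (lam G p k))
    (s : ℕ) : ∀ y ∈ lam G p (n + s * ρ), ∃ w ∈ lam G p n,
      QuotientGroup.mk' (lam G p (2 * n + 1)) y =
        QuotientGroup.mk' (lam G p (2 * n + 1)) (w ^ (p ^ s)) := by
  induction s with
  | zero =>
    intro y hy
    rw [zero_mul, add_zero] at hy
    exact ⟨y, hy, by simp⟩
  | succ s ih =>
    intro y hy
    have e1 : n + (s + 1) * ρ = n + s * ρ + ρ := by ring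
    rw [e1] at hy
    have h1 := h (n + s * ρ) (by omega) hy
    obtain ⟨w, hw, h2⟩ := exists_pow_mod (lam G p (2 * n + 1)) (lam G p (n + s * ρ))
      ((comm_le p _ _).trans (lam_anti p (by nlinarith [Nat.zero_le (s * ρ)]))) y h1
    obtain ⟨v, hv, h3⟩ := ih w hw
    refine ⟨v, hv, ?_⟩
    rw [h2, map_pow, h3, ← map_pow, ← pow_mul, ← pow_succ]

lemma lv_strict (hG : IsPGroup p G) {n : ℕ} (hne : lam G p (2 * n) ≠ ⊥) (t : ℕ)
    (ht : t ≤ n + 1) : lv p (lam G p n) + t ≤ lv p (lam G p (n + t)) := by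
  induction t with
  | zero => simp
  | succ t ih =>
    have h1 := ih (by omega)
    have h2 : lam G p (n + t) ≠ ⊥ := by
      intro h3
      apply hne
      rw [← le_bot_iff, ← h3]
      exact lam_anti p (by omega)
    have h3 := lv_lt hG (lam_strict hG (n + t) h2)
    rw [← add_assoc n t 1]
    omega

/-- Centralizers in the shallow case. -/
theorem cc_ge_shallow (hG : IsPGroup p G) {a : ℕ}
    (hA : psi p (⊥ : Subgroup G) ≤ a * ((p : ℤ) ^ 2 - 1) * (p - 1)) {i ρ n F : ℕ} (hρ : ρ ≤ i)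
    (h : ∀ k, n ≤ k → lam G p (k + ρ) ≤ pw p (lam G p k))
    (hn : n = F * (2 * ρ + 1) + 2 * a) (hne : lam G p (2 * n) ≠ ⊥) :
    ∀ x ∈ (lam G p (2 * i)).map (QuotientGroup.mk' (lam G p (2 * n + 1))), p ^ F ≤ cc x := by
  rintro x ⟨y, hy, rfl⟩
  set N := lam G p (2 * n + 1) with hN
  have hNn : N ≤ lam G p n := lam_anti p (by omega)
  have hVn : ((lam G p n).map (QuotientGroup.mk' N)).Normal :=
    Subgroup.Normal.map inferInstance _ (QuotientGroup.mk'_surjective N)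
  have hcomm : ⁅lam G p n, lam G p n⁆ ≤ N := by
    refine (comm_le p n n).trans (le_of_eq ?_)
    rw [← two_mul]
  obtain ⟨s, h1, h2⟩ := lemmaK (hG.to_quotient N) ((lam G p n).map (QuotientGroup.mk' N)) hVn
    (quot_comm N _ hcomm) (QuotientGroup.mk' N y) (by
      rintro _ ⟨v, hv, rfl⟩
      have h3 : ⁅y, v⁆ ∈ lam G p (n + 2 * ρ) := by
        refine lam_anti p ?_ (comm_le p (2 * i) n (commutator_mem_commutator hy hv))
        omega
      obtain ⟨w, hw, h4⟩ := exists_pow_mod_iter h 2 _ h3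
      refine ⟨QuotientGroup.mk' N w, ⟨w, hw, rfl⟩, ?_⟩
      rw [← map_pow, ← h4, map_commutatorElement, commutatorElement_def])
  rcases Nat.lt_or_ge s F with hsF | hsF
  · have hle : n + s * ρ ≤ 2 * n + 1 := by
      have : s * ρ ≤ F * ρ := Nat.mul_le_mul_right _ hsF.le
      nlinarith
    have hNs : N ≤ lam G p (n + s * ρ) := lam_anti p hle
    have h3 : (lam G p (n + s * ρ)).map (QuotientGroup.mk' N) ≤
        Subgroup.centralizer ({QuotientGroup.mk' N y} : Set (G ⧸ N)) ⊓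
          (lam G p n).map (QuotientGroup.mk' N) := by
      refine le_inf ?_ (Subgroup.map_mono (lam_anti p (by omega)))
      rintro _ ⟨z, hz, rfl⟩
      obtain ⟨w, hw, h4⟩ := exists_pow_mod_iter h s _ hz
      rw [mem_centralizer_singleton_iff, h4, map_pow]
      exact (h1 _ ⟨w, hw, rfl⟩).symm
    have h4 := Subgroup.card_le_of_le h3
    have h5 := card_map_of_card N _ hNs (card_eq_lv hG hNs)
    rw [h5] at h4
    have h6 : lv p (lam G p n) + (n + 1) ≤ lv p N := by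
      have h7 := lv_strict hG hne (n + 1) le_rfl
      have e1 : n + (n + 1) = 2 * n + 1 := by ring
      rwa [e1] at h7
    have h7 := lv_lam_le hG hA n (s * ρ)
    refine le_trans ?_ (le_trans (Nat.mul_le_mul_left _ h4) h2)
    rw [← pow_add]
    apply Nat.pow_le_pow_right hp.out.pos
    have h8 : s * ρ ≤ F * ρ := Nat.mul_le_mul_right _ hsF.le
    have h9 : n = 2 * (F * ρ) + F + 2 * a := by rw [hn]; ring
    omega
  · refine le_trans (Nat.pow_le_pow_right hp.out.pos hsF) (le_trans ?_ h2)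
    exact Nat.le_mul_of_pos_right _ Nat.card_pos

theorem shallow_count (hG : IsPGroup p G) {a : ℕ}
    (hA : psi p (⊥ : Subgroup G) ≤ a * ((p : ℤ) ^ 2 - 1) * (p - 1)) {i ρ n F : ℕ} (hρ : ρ ≤ i)
    (hin : i ≤ n) (h : ∀ k, n ≤ k → lam G p (k + ρ) ≤ pw p (lam G p k))
    (hn : n = F * (2 * ρ + 1) + 2 * a) (hne : lam G p (2 * n) ≠ ⊥) :
    p ^ F ≤ kk (G ⧸ lam G p (2 * n + 1)) * p ^ (4 * i + 2 * a) := by
  have : Fintype (G ⧸ lam G p (2 * n + 1)) := Fintype.ofFinite _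
  have h1 := pow_le_kk_mul_index _ _ (cc_ge_shallow hG hA hρ h hn hne)
  refine h1.trans (Nat.mul_le_mul_left _ ?_)
  have h2 : ((lam G p (2 * i)).map (QuotientGroup.mk' (lam G p (2 * n + 1)))).index =
      (lam G p (2 * i)).index := by
    apply Subgroup.index_map_eq _ (QuotientGroup.mk'_surjective _)
    rw [QuotientGroup.ker_mk']
    exact lam_anti p (by omega)
  rw [h2, index_eq hG]
  apply Nat.pow_le_pow_right hp.out.pos
  have h3 := lv_lam_le' hG hA (2 * i)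
  omega

/-- `B = p ^ (a + 6)` and its size. -/
lemma B_facts (hp2 : 2 ≤ p) (a : ℕ) : 64 * (a + 1) ≤ p ^ (a + 6) ∧ p ^ 2 ≤ p ^ (a + 6) ∧
    p ^ (a + 4) ≤ p ^ (a + 6) ∧ a * (p ^ 2 * p) ≤ p ^ (a + 6) := by
  have h1 := succ_le_pow_self hp2 a
  have h2 : p ^ (a + 6) = p ^ a * p ^ 6 := pow_add p a 6
  have h3 : 64 ≤ p ^ 6 := by
    calc 64 = 2 ^ 6 := by norm_num
      _ ≤ p ^ 6 := Nat.pow_le_pow_left hp2 6
  refine ⟨?_, Nat.pow_le_pow_right (by omega) (by omega),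
    Nat.pow_le_pow_right (by omega) (by omega), ?_⟩
  · rw [h2]
    calc 64 * (a + 1) = (a + 1) * 64 := by ring
      _ ≤ p ^ a * p ^ 6 := Nat.mul_le_mul h1 h3
  · rw [h2]
    apply Nat.mul_le_mul (by omega)
    rw [← pow_succ]
    exact Nat.pow_le_pow_right (by omega) (by omega)

theorem lam_eq_bot (hG : IsPGroup p G) {a : ℕ}
    (hA : psi p (⊥ : Subgroup G) ≤ a * ((p : ℤ) ^ 2 - 1) * (p - 1)) :
    ∃ n, n ≤ 13 * (p ^ (a + 6)) ^ 2 ∧ lam G p (2 * n) = ⊥ := by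
  obtain ⟨i, ρ, hi, hρ, h⟩ := exists_shallow hG hA
  have hsh := shallow hG i ρ hρ h
  have hp2 := hp.out.two_le
  obtain ⟨hB1, hB2, hB3, hB4⟩ := B_facts hp2 a
  set B := p ^ (a + 6) with hB
  have hiB : i ≤ B := hi.trans hB3
  have hin : i ≤ 6 * B * (2 * ρ + 1) + 2 * a := by nlinarith
  have hnle : 6 * B * (2 * ρ + 1) + 2 * a ≤ 13 * B ^ 2 := by
    have : ρ ≤ B := hρ.trans hiB
    nlinarith
  refine ⟨6 * B * (2 * ρ + 1) + 2 * a, hnle, ?_⟩
  by_contra hne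
  have h1 := shallow_count hG hA hρ hin (fun k hk => hsh k (hin.trans hk)) rfl hne
  set n := 6 * B * (2 * ρ + 1) + 2 * a with hn
  -- upper bound for the class number
  have h2 := two_mul_kk_le hG hA (lam G p (2 * n + 1))
  have h3 := lv_lam_le' hG hA (2 * n + 1)
  set κ := kk (G ⧸ lam G p (2 * n + 1)) with hκ
  have hp2' : (2 : ℤ) ≤ p := by exact_mod_cast hp2
  have h4 : (κ : ℤ) ≤ (p : ℤ) ^ 2 * (2 * n + 1 + a) + 1 + a * (p ^ 2 * p) := by
    have h5 : ((lv p (lam G p (2 * n + 1)) : ℕ) : ℤ) ≤ 2 * (2 * n + 1) + 2 * a := by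
      exact_mod_cast h3
    have h6 : ((p : ℤ) ^ 2 - 1) * lv p (lam G p (2 * n + 1)) ≤
        (p : ℤ) ^ 2 * (2 * (2 * n + 1) + 2 * a) := by
      have h7 : (0 : ℤ) ≤ lv p (lam G p (2 * n + 1)) := by positivity
      nlinarith
    have h8 : (a : ℤ) * ((p : ℤ) ^ 2 - 1) * (p - 1) ≤ a * (p ^ 2 * p) := by
      have : ((p : ℤ) ^ 2 - 1) * (p - 1) ≤ p ^ 2 * p := by nlinarith
      have ha : (0 : ℤ) ≤ a := by positivity
      nlinarith
    linarith
  have h5 : κ ≤ p ^ 2 * (2 * n + 1 + a) + 1 + a * (p ^ 2 * p) := by exact_mod_cast h4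
  have h6 : κ ≤ B ^ 4 := by
    have h7 : p ^ 2 * (2 * n + 1 + a) ≤ B * (2 * n + 1 + a) := Nat.mul_le_mul_right _ hB2
    have h8 : 2 * n + 1 + a ≤ 27 * B ^ 2 := by nlinarith
    have h9 : B * (2 * n + 1 + a) ≤ B * (27 * B ^ 2) := Nat.mul_le_mul_left _ h8
    have h10 : κ ≤ 27 * B ^ 3 + 1 + B := by
      calc κ ≤ p ^ 2 * (2 * n + 1 + a) + 1 + a * (p ^ 2 * p) := h5
        _ ≤ B * (27 * B ^ 2) + 1 + B := by omega
        _ = 27 * B ^ 3 + 1 + B := by ring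
    have h11 : 27 * B ^ 3 + 1 + B ≤ 64 * B ^ 3 := by nlinarith [Nat.one_le_pow 2 B (by omega)]
    have h12 : 64 * B ^ 3 ≤ B * B ^ 3 := Nat.mul_le_mul_right _ (by omega)
    calc κ ≤ 64 * B ^ 3 := h10.trans h11
      _ ≤ B * B ^ 3 := h12
      _ = B ^ 4 := by ring
  -- contradiction
  have h7 : p ^ (4 * i + 2 * a) ≤ p ^ (5 * B) := Nat.pow_le_pow_right hp.out.pos (by omega)
  have h8 : p ^ (6 * B) ≤ B ^ 4 * p ^ (5 * B) := h1.trans (Nat.mul_le_mul h6 h7)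
  have h9 : B ^ 4 = p ^ (4 * (a + 6)) := by rw [hB, ← pow_mul]; ring_nf
  rw [h9, ← pow_add] at h8
  have h10 := (Nat.pow_le_pow_iff_right hp.out.one_lt).1 h8
  omega

/-- The order of `G` is bounded. -/
theorem card_bound (hG : IsPGroup p G) {a m : ℕ} (hm : Nat.card G = p ^ m)
    (hA : psi p (⊥ : Subgroup G) ≤ a * ((p : ℤ) ^ 2 - 1) * (p - 1)) :
    m ≤ (p ^ (a + 6)) ^ 3 := by
  obtain ⟨n, hn, h⟩ := lam_eq_bot hG hA
  have h1 := lv_lam_le' hG hA (2 * n)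
  have h2 : lv p (⊥ : Subgroup G) = m := lv_of_index (by simp [hm])
  rw [h, h2] at h1
  obtain ⟨hB1, hB2, hB3, hB4⟩ := B_facts hp.out.two_le a
  set B := p ^ (a + 6) with hB
  have h3 : m ≤ 64 * B ^ 2 := by nlinarith
  calc m ≤ 64 * B ^ 2 := h3
    _ ≤ B * B ^ 2 := Nat.mul_le_mul_right _ (by omega)
    _ = B ^ 3 := by ring

theorem main (P : Type*) [Group P] [Finite P] (hP : IsPGroup p P) (n e a : ℕ) (he : e < 2)
    (hcard : Nat.card P = p ^ (2 * n + e))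
    (hk : Nat.card (ConjClasses P) = p ^ e + (p ^ 2 - 1) * (n + (p - 1) * a)) :
    ∃ s : P, Nat.card (Subgroup.centralizer ({s} : Set P)) ≤ p ^ (5 * (a + 6)) := by
  have : Fintype P := Fintype.ofFinite P
  have hp2 := hp.out.two_le
  have hkk : kk P = p ^ e + (p ^ 2 - 1) * (n + (p - 1) * a) := hk
  have hh1 : hh p (2 * n + e) = p ^ e + (p ^ 2 - 1) * n := by
    have e1 : (2 * n + e) % 2 = e := by omega
    have e2 : (2 * n + e) / 2 = n := by omega
    rw [hh, e1, e2]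
  have hA : psi p (⊥ : Subgroup P) ≤ a * ((p : ℤ) ^ 2 - 1) * (p - 1) := by
    rw [psi_bot hcard, hkk, hh1]
    apply le_of_eq
    rw [Nat.cast_add, Nat.cast_mul, Nat.cast_add, Nat.cast_mul, cast_sq_sub_one p hp.out.pos,
      Nat.cast_add, Nat.cast_mul, cast_sq_sub_one p hp.out.pos,
      Nat.cast_sub hp.out.pos]
    push_cast
    ring
  obtain ⟨s, hs⟩ := exists_cc_le (Q := P)
  refine ⟨s, le_trans hs ?_⟩
  have hm := card_bound hP hcard hA
  obtain ⟨hB1, hB2, hB3, hB4⟩ := B_facts hp2 a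
  have e5 : p ^ (5 * (a + 6)) = (p ^ (a + 6)) ^ 5 := by rw [← pow_mul]; ring_nf
  rw [hkk, e5]
  set B := p ^ (a + 6) with hB
  have h1 : p ^ e ≤ B := Nat.pow_le_pow_right hp.out.pos (by omega)
  have h2 : (p ^ 2 - 1) * (n + (p - 1) * a) ≤ p ^ 2 * (n + p * a) := by
    apply Nat.mul_le_mul (Nat.sub_le _ _)
    apply Nat.add_le_add_left
    exact Nat.mul_le_mul_right _ (Nat.sub_le _ _)
  have h3 : p ^ 2 * (n + p * a) = p ^ 2 * n + a * (p ^ 2 * p) := by ring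
  have h4 : p ^ 2 * n ≤ B * B ^ 3 := Nat.mul_le_mul hB2 (by omega)
  have h5 : B * B ^ 3 = B ^ 4 := by ring
  have h6 : p ^ e + (p ^ 2 - 1) * (n + (p - 1) * a) ≤ B + (B ^ 4 + B) := by omega
  have h7 : B + (B ^ 4 + B) ≤ 3 * B ^ 4 := by nlinarith [Nat.one_le_pow 3 B (by omega)]
  calc p ^ e + (p ^ 2 - 1) * (n + (p - 1) * a) ≤ 3 * B ^ 4 := h6.trans h7
    _ ≤ B * B ^ 4 := Nat.mul_le_mul_right _ (by omega)
    _ = B ^ 5 := by ring

end Final

end Pool.Agent.Abund
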