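import Mathlib

/-!
# P. Hall's congruence for the class number of a finite `p`-group

If `G` is a finite `p`-group then `|G| * k(G) = 1` modulo `p ^ 2 - 1`.
-/

set_option autoImplicit false

namespace Pool.Agent.Abund

open Finset

/-- The class number. -/
noncomputable def kk (G : Type*) [Group G] : ℕ := Nat.card (ConjClasses G)

section HallCong

variable {G : Type*} [Group G]

lemma card_sq_eq_one {p : ℕ} [hp : Fact p.Prime] [Finite G] (hG : IsPGroup p G)
    (B : Subgroup G) : ((Nat.card B : ZMod (p ^ 2 - 1))) ^ 2 = 1 := by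
  obtain ⟨k, hk⟩ := IsPGroup.iff_card.1 (hG.to_subgroup B)
  have h1 : ((p : ZMod (p ^ 2 - 1))) ^ 2 = 1 := by
    have h2 : ((p ^ 2 - 1 : ℕ) : ZMod (p ^ 2 - 1)) = 0 := ZMod.natCast_self _
    have h3 : 1 ≤ p ^ 2 := Nat.one_le_pow _ _ hp.out.pos
    rw [Nat.cast_sub h3] at h2
    push_cast at h2
    exact sub_eq_zero.1 h2
  rw [hk]
  push_cast
  rw [← pow_mul, mul_comm, pow_mul, h1, one_pow]

/-- `|G| * k(G) = 1` modulo `p ^ 2 - 1`. -/
theorem hall_congruence {p : ℕ} [hp : Fact p.Prime] [Finite G] (hG : IsPGroup p G) :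
    (Nat.card G : ZMod (p ^ 2 - 1)) * (kk G : ZMod (p ^ 2 - 1)) = 1 := by
  classical
  have : Fintype G := Fintype.ofFinite G
  have : Fintype (Subgroup G) := Fintype.ofFinite _
  let s : Finset (Subgroup G) := univ.filter fun A => ∀ x ∈ A, ∀ y ∈ A, x * y = y * x
  let S : Subgroup G → Finset (G × G) := fun A => univ.filter fun q => q.1 ∈ A ∧ q.2 ∈ A
  have hcardS : ∀ A : Subgroup G, ((S A).card : ZMod (p ^ 2 - 1)) = 1 := by
    intro A
    have h1 : (S A) = (univ.filter fun x : G => x ∈ A) ×ˢ (univ.filter fun x : G => x ∈ A) := by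
      ext q
      simp [S]
    have h2 : (univ.filter fun x : G => x ∈ A).card = Nat.card A := by
      rw [Nat.card_eq_fintype_card, Fintype.card_subtype]
    rw [h1, card_product, h2, ← sq]
    push_cast
    exact card_sq_eq_one hG A
  have hinf : ∀ (t : Finset (Subgroup G)) (ht : t.Nonempty),
      ∃ B : Subgroup G, t.inf' ht S = S B := by
    intro t ht
    refine Finset.inf'_induction ht S (p := fun X => ∃ B : Subgroup G, X = S B) ?_ ?_
    · rintro a ⟨A, rfl⟩ b ⟨B, rfl⟩
      refine ⟨A ⊓ B, ?_⟩
      ext q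
      simp only [S, Finset.inf_eq_inter, mem_inter, mem_filter, mem_univ, true_and,
        Subgroup.mem_inf]
      tauto
    · intro b _
      exact ⟨b, rfl⟩
  have hunion : (s.biUnion S) = univ.filter fun q : G × G => Commute q.1 q.2 := by
    ext q
    simp only [mem_biUnion, mem_filter, mem_univ, true_and, s, S]
    constructor
    · rintro ⟨A, hA, h1, h2⟩
      exact hA _ h1 _ h2
    · intro h
      refine ⟨Subgroup.closure {q.1, q.2}, ?_, Subgroup.subset_closure (by simp),
        Subgroup.subset_closure (by simp)⟩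
      have hc : ∀ a ∈ ({q.1, q.2} : Set G), ∀ b ∈ ({q.1, q.2} : Set G), a * b = b * a := by
        intro a ha b hb
        simp only [Set.mem_insert_iff, Set.mem_singleton_iff] at ha hb
        rcases ha with rfl | rfl <;> rcases hb with rfl | rfl
        · rfl
        · exact h
        · exact h.symm
        · rfl
      intro x hx y hy
      have h3 := Subgroup.closure_induction₂ (p := fun x y _ _ => x * y = y * x)
        (fun a b ha hb => hc a ha b hb) (fun a _ => by simp) (fun a _ => by simp)
        (fun a b c _ _ _ h1 h2 => by rw [mul_assoc, h2, ← mul_assoc, h1, mul_assoc])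
        (fun a b c _ _ _ h1 h2 => by rw [← mul_assoc, h1, mul_assoc, h2, mul_assoc])
        (fun a b _ _ h1 => (Commute.inv_left (show Commute a b from h1)).eq)
        (fun a b _ _ h1 => (Commute.inv_right (show Commute a b from h1)).eq) hx hy
      exact h3
  have hne : s.Nonempty := ⟨⊥, by
    simp only [s, mem_filter, mem_univ, true_and]
    intro x hx y hy
    rw [Subgroup.mem_bot] at hx hy
    rw [hx, hy]⟩
  have hkey := inclusion_exclusion_card_biUnion s S
  have hone := inclusion_exclusion_card_biUnion s (fun _ => ({()} : Finset Unit))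
  have hone' : ((s.biUnion fun _ => ({()} : Finset Unit)).card : ℤ) = 1 := by
    have : (s.biUnion fun _ => ({()} : Finset Unit)) = {()} := by
      ext x
      simp only [mem_biUnion, mem_singleton]
      exact ⟨fun _ => trivial, fun _ => ⟨hne.choose, hne.choose_spec, trivial⟩⟩
    rw [this]
    simp
  rw [hone'] at hone
  have hkey2 := congrArg (Int.cast : ℤ → ZMod (p ^ 2 - 1)) hkey
  have hone2 := congrArg (Int.cast : ℤ → ZMod (p ^ 2 - 1)) hone
  push_cast at hkey2 hone2
  have hc : ((univ.filter fun q : G × G => Commute q.1 q.2).card) = kk G * Nat.card G := by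
    rw [kk, ← card_comm_eq_card_conjClasses_mul_card, Nat.card_eq_fintype_card,
      Fintype.card_subtype]
  rw [hunion, hc] at hkey2
  rw [mul_comm, ← Nat.cast_mul, hkey2]
  refine Eq.trans (Finset.sum_congr rfl fun t _ => ?_) hone2.symm
  obtain ⟨B, hB⟩ := hinf t.1 (mem_filter.1 t.2).2
  have h4 : (t.1.inf' (mem_filter.1 t.2).2 fun _ => ({()} : Finset Unit)) = {()} := by
    refine Finset.inf'_induction _ _ (p := fun X => X = ({()} : Finset Unit)) ?_ ?_
    · rintro a rfl b rfl
      simp
    · intro b _
      rfl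
  rw [hB, hcardS, h4]
  simp

end HallCong

end Pool.Agent.Abund
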