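import Pool.Agent.Lib_helper36.Abund.Final

/-!
# P. Hall's formula for the class number of a finite `p`-group

If `|G| = p ^ (2 n + e)` with `e ≤ 1` then
`k(G) = n (p ^ 2 - 1) + p ^ e + a (p ^ 2 - 1) (p - 1)` with a unique `a ≥ 0`.
-/

set_option autoImplicit false

universe u

namespace Pool.Agent.Abund

open Finset

section HallFull

variable {G : Type u} [Group G]

/-- `x ^ k = 1 + (x - 1) k` modulo `(x - 1) ^ 2`. -/
lemma pow_mod_sq (x : ℤ) (k : ℕ) : ∃ u : ℤ, x ^ k = 1 + (x - 1) * k + (x - 1) ^ 2 * u := by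
  induction k with
  | zero => exact ⟨0, by simp⟩
  | succ k ih =>
    obtain ⟨u, hu⟩ := ih
    refine ⟨u * x + k, ?_⟩
    rw [pow_succ, hu]
    push_cast
    ring

/-- The three inclusion-exclusion identities. -/
theorem incl_excl [Finite G] :
    ∃ (T : Type u) (_ : Fintype T) (ε : T → ℤ) (B : T → Subgroup G),
      ((kk G : ℤ) * Nat.card G = ∑ t, ε t * (Nat.card (B t) : ℤ) ^ 2) ∧
      ((Nat.card G : ℤ) = ∑ t, ε t * (Nat.card (B t) : ℤ)) ∧
      (1 = ∑ t, ε t) := by
  classical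
  have : Fintype G := Fintype.ofFinite G
  have : Fintype (Subgroup G) := Fintype.ofFinite _
  let s : Finset (Subgroup G) := univ.filter fun A => ∀ x ∈ A, ∀ y ∈ A, x * y = y * x
  let S : Subgroup G → Finset (G × G) := fun A => univ.filter fun q => q.1 ∈ A ∧ q.2 ∈ A
  let R : Subgroup G → Finset G := fun A => univ.filter fun q => q ∈ A
  have hcardR : ∀ A : Subgroup G, (R A).card = Nat.card A := by
    intro A
    simp only [R]
    rw [Nat.card_eq_fintype_card, Fintype.card_subtype]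
  have hcardS : ∀ A : Subgroup G, ((S A).card : ℤ) = (Nat.card A : ℤ) ^ 2 := by
    intro A
    have h1 : (S A) = (univ.filter fun x : G => x ∈ A) ×ˢ (univ.filter fun x : G => x ∈ A) := by
      ext q
      simp [S]
    have h2 : (univ.filter fun x : G => x ∈ A).card = Nat.card A := by
      rw [Nat.card_eq_fintype_card, Fintype.card_subtype]
    rw [h1, card_product, h2, ← sq]
    push_cast
    rfl
  have hinf : ∀ (t : Finset (Subgroup G)) (ht : t.Nonempty),
      ∃ B : Subgroup G, t.inf' ht S = S B ∧ t.inf' ht R = R B := by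
    intro t ht
    refine ⟨t.inf' ht id, ?_, ?_⟩
    · exact (Finset.apply_inf'_eq_inf'_comp ht S (fun A B => by
        ext q
        simp only [S, Finset.inf_eq_inter, mem_inter, mem_filter, mem_univ, true_and,
          Subgroup.mem_inf]
        tauto)).symm
    · exact (Finset.apply_inf'_eq_inf'_comp ht R (fun A B => by
        ext q
        simp only [R, Finset.inf_eq_inter, mem_inter, mem_filter, mem_univ, true_and,
          Subgroup.mem_inf])).symm
  have hunion : (s.biUnion S) = univ.filter fun q : G × G => Commute q.1 q.2 := by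
    ext q
    simp only [mem_biUnion, mem_filter, mem_univ, true_and, s, S]
    constructor
    · rintro ⟨A, hA, h1, h2⟩
      exact hA _ h1 _ h2
    · intro h
      refine ⟨Subgroup.closure {q.1, q.2}, ?_, Subgroup.subset_closure (by simp),
        Subgroup.subset_closure (by simp)⟩
      have hc : ∀ a ∈ ({q.1, q.2} : Set G), ∀ b ∈ ({q.1, q.2} : Set G), a * b = b * a := by
        intro a ha b hb
        simp only [Set.mem_insert_iff, Set.mem_singleton_iff] at ha hb
        rcases ha with rfl | rfl <;> rcases hb with rfl | rfl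
        · rfl
        · exact h
        · exact h.symm
        · rfl
      intro x hx y hy
      have h3 := Subgroup.closure_induction₂ (p := fun x y _ _ => x * y = y * x)
        (fun a b ha hb => hc a ha b hb) (fun a _ => by simp) (fun a _ => by simp)
        (fun a b c _ _ _ h1 h2 => by rw [mul_assoc, h2, ← mul_assoc, h1, mul_assoc])
        (fun a b c _ _ _ h1 h2 => by rw [← mul_assoc, h1, mul_assoc, h2, mul_assoc])
        (fun a b _ _ h1 => (Commute.inv_left (show Commute a b from h1)).eq)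
        (fun a b _ _ h1 => (Commute.inv_right (show Commute a b from h1)).eq) hx hy
      exact h3
  have hunionR : (s.biUnion R) = univ := by
    ext q
    simp only [mem_biUnion, mem_filter, mem_univ, true_and, s, R, iff_true]
    refine ⟨Subgroup.zpowers q, ?_, Subgroup.mem_zpowers q⟩
    intro x hx y hy
    obtain ⟨i, rfl⟩ := Subgroup.mem_zpowers_iff.1 hx
    obtain ⟨j, rfl⟩ := Subgroup.mem_zpowers_iff.1 hy
    rw [← zpow_add, ← zpow_add, add_comm]
  have hne : s.Nonempty := ⟨⊥, by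
    simp only [s, mem_filter, mem_univ, true_and]
    intro x hx y hy
    rw [Subgroup.mem_bot] at hx hy
    rw [hx, hy]⟩
  have hkey := inclusion_exclusion_card_biUnion s S
  have hkeyR := inclusion_exclusion_card_biUnion s R
  have hone := inclusion_exclusion_card_biUnion s (fun _ => ({()} : Finset Unit))
  have hone' : ((s.biUnion fun _ => ({()} : Finset Unit)).card : ℤ) = 1 := by
    have : (s.biUnion fun _ => ({()} : Finset Unit)) = {()} := by
      ext x
      simp only [mem_biUnion, mem_singleton]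
      exact ⟨fun _ => trivial, fun _ => ⟨hne.choose, hne.choose_spec, trivial⟩⟩
    rw [this]
    simp
  rw [hone'] at hone
  have hc : ((univ.filter fun q : G × G => Commute q.1 q.2).card) = kk G * Nat.card G := by
    rw [kk, ← card_comm_eq_card_conjClasses_mul_card, Nat.card_eq_fintype_card,
      Fintype.card_subtype]
  rw [hunion, hc] at hkey
  rw [hunionR, card_univ, ← Nat.card_eq_fintype_card] at hkeyR
  refine ⟨{t : Finset (Subgroup G) // t ∈ s.powerset.filter (·.Nonempty)}, inferInstance,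
    fun t => (-1 : ℤ) ^ (#t.1 + 1), fun t => (hinf t.1 (mem_filter.1 t.2).2).choose, ?_, ?_, ?_⟩
  · push_cast at hkey
    rw [hkey]
    refine Finset.sum_congr rfl fun t _ => ?_
    have h := (hinf t.1 (mem_filter.1 t.2).2).choose_spec.1
    rw [h, hcardS]
  · rw [hkeyR]
    refine Finset.sum_congr rfl fun t _ => ?_
    have h := (hinf t.1 (mem_filter.1 t.2).2).choose_spec.2
    rw [h, hcardR]
  · refine hone.trans (Finset.sum_congr rfl fun t _ => ?_)
    have h4 : (t.1.inf' (mem_filter.1 t.2).2 fun _ => ({()} : Finset Unit)) = {()} := by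
      refine Finset.inf'_induction _ _ (p := fun X => X = ({()} : Finset Unit)) ?_ ?_
      · rintro a rfl b rfl
        simp
      · intro b _
        rfl
    rw [h4]
    simp

/-- P. Hall's congruence. -/
theorem hall_mod {p : ℕ} [hp : Fact p.Prime] [Finite G] (hG : IsPGroup p G) {m : ℕ}
    (hm : Nat.card G = p ^ m) :
    ∃ w : ℤ, (kk G : ℤ) * (p : ℤ) ^ m =
      1 + ((p : ℤ) ^ 2 - 1) * m + ((p : ℤ) ^ 2 - 1) * (p - 1) * w := by
  classical
  obtain ⟨T, hT, ε, B, h1, h2, h3⟩ := incl_excl (G := G)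
  have hk : ∀ t, ∃ k : ℕ, Nat.card (B t) = p ^ k := fun t =>
    IsPGroup.iff_card.1 (hG.to_subgroup (B t))
  choose k hk using hk
  choose U hU using fun t => pow_mod_sq (p : ℤ) (k t)
  choose V hV using fun t => pow_mod_sq ((p : ℤ) ^ 2) (k t)
  obtain ⟨U', hU'⟩ := pow_mod_sq (p : ℤ) m
  set K : ℤ := ∑ t, ε t * (k t : ℤ) with hK
  have hp2 : (2 : ℤ) ≤ p := by exact_mod_cast hp.out.two_le
  have e2 : (p : ℤ) ^ m = 1 + (p - 1) * K + (p - 1) ^ 2 * ∑ t, ε t * U t := by
    have : ((Nat.card G : ℕ) : ℤ) = (p : ℤ) ^ m := by rw [hm]; push_cast; rfl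
    rw [← this, h2]
    have e : ∀ t, ε t * (Nat.card (B t) : ℤ) =
        ε t + (p - 1) * (ε t * (k t : ℤ)) + (p - 1) ^ 2 * (ε t * U t) := by
      intro t
      rw [hk t]
      push_cast
      rw [hU t]
      ring
    simp_rw [e]
    rw [Finset.sum_add_distrib, Finset.sum_add_distrib, ← Finset.mul_sum, ← Finset.mul_sum, ← h3]
  have e1 : (kk G : ℤ) * (p : ℤ) ^ m =
      1 + ((p : ℤ) ^ 2 - 1) * K + ((p : ℤ) ^ 2 - 1) ^ 2 * ∑ t, ε t * V t := by
    have : ((Nat.card G : ℕ) : ℤ) = (p : ℤ) ^ m := by rw [hm]; push_cast; rfl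
    rw [← this, h1]
    have e : ∀ t, ε t * (Nat.card (B t) : ℤ) ^ 2 =
        ε t + ((p : ℤ) ^ 2 - 1) * (ε t * (k t : ℤ)) + ((p : ℤ) ^ 2 - 1) ^ 2 * (ε t * V t) := by
      intro t
      rw [hk t]
      push_cast
      rw [← pow_mul, mul_comm (k t) 2, pow_mul, hV t]
      ring
    simp_rw [e]
    rw [Finset.sum_add_distrib, Finset.sum_add_distrib, ← Finset.mul_sum, ← Finset.mul_sum, ← h3]
  have e3 : K = m + (p - 1) * (U' - ∑ t, ε t * U t) := by
    have h4 : ((p : ℤ) - 1) * K = (p - 1) * (m + (p - 1) * (U' - ∑ t, ε t * U t)) := by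
      rw [hU'] at e2
      linear_combination -e2
    exact mul_left_cancel₀ (by linarith) h4
  refine ⟨(U' - ∑ t, ε t * U t) + (p + 1) * ∑ t, ε t * V t, ?_⟩
  rw [e1, e3]
  ring

/-- P. Hall's formula: existence of the abundance. -/
theorem exists_abundance {p : ℕ} [hp : Fact p.Prime] [Finite G] (hG : IsPGroup p G) {n e : ℕ}
    (hcard : Nat.card G = p ^ (2 * n + e)) (he : e < 2) :
    ∃ a : ℕ, (kk G : ℤ) = n * ((p : ℤ) ^ 2 - 1) + (p : ℤ) ^ e + a * (((p : ℤ) ^ 2 - 1) * (p - 1)) := by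
  obtain ⟨w, hw⟩ := hall_mod hG hcard
  have hp2 : (2 : ℤ) ≤ p := by exact_mod_cast hp.out.two_le
  set M : ℤ := ((p : ℤ) ^ 2 - 1) * (p - 1) with hM
  have hMpos : 0 < M := by
    rw [hM]
    apply mul_pos <;> nlinarith
  -- the same congruence for the main term
  have h1 : M ∣ (p : ℤ) ^ (2 * n + e) * (n * ((p : ℤ) ^ 2 - 1) + (p : ℤ) ^ e) -
      (1 + ((p : ℤ) ^ 2 - 1) * ((2 * n + e : ℕ) : ℤ)) := by
    obtain ⟨u, hu⟩ := pow_mod_sq ((p : ℤ) ^ 2) (n + e)
    obtain ⟨v, hv⟩ := pow_mod_sq (p : ℤ) (2 * n + e)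
    have h2 : (p : ℤ) ^ (2 * n + e) * (p : ℤ) ^ e = ((p : ℤ) ^ 2) ^ (n + e) := by
      rw [← pow_add, ← pow_mul]
      congr 1
      ring
    refine ⟨(p + 1) * u + n * (((2 * n + e : ℕ) : ℤ) + (p - 1) * v), ?_⟩
    have h3 : (p : ℤ) ^ (2 * n + e) * (n * ((p : ℤ) ^ 2 - 1) + (p : ℤ) ^ e) =
        n * ((p : ℤ) ^ 2 - 1) * (p : ℤ) ^ (2 * n + e) + (p : ℤ) ^ (2 * n + e) * (p : ℤ) ^ e := by
      ring
    rw [h3, h2, hu, hv, hM]
    push_cast
    ring
  have h2 : M ∣ (p : ℤ) ^ (2 * n + e) *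
      ((kk G : ℤ) - (n * ((p : ℤ) ^ 2 - 1) + (p : ℤ) ^ e)) := by
    obtain ⟨c, hc⟩ := h1
    refine ⟨w - c, ?_⟩
    linear_combination hw - hc
  have hcop : IsCoprime M ((p : ℤ) ^ (2 * n + e)) := by
    apply IsCoprime.pow_right
    refine ⟨1, -((p : ℤ) ^ 2 - p - 1), ?_⟩
    rw [hM]
    ring
  have h3 := hcop.dvd_of_dvd_mul_left h2
  obtain ⟨c, hc⟩ := h3
  have hpsi := psi_nonneg hG (⊥ : Subgroup G)
  have hh1 : (hh p (2 * n + e) : ℤ) = n * ((p : ℤ) ^ 2 - 1) + (p : ℤ) ^ e := by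
    have e1 : (2 * n + e) % 2 = e := by omega
    have e2 : (2 * n + e) / 2 = n := by omega
    rw [hh, e1, e2, Nat.cast_add, Nat.cast_mul, cast_sq_sub_one p hp.out.pos]
    push_cast
    ring
  rw [psi_bot hcard, hh1, hc] at hpsi
  have hc0 : 0 ≤ c := by
    by_contra hneg
    push Not at hneg
    nlinarith
  refine ⟨c.toNat, ?_⟩
  have : ((c.toNat : ℕ) : ℤ) = c := Int.toNat_of_nonneg hc0
  rw [this]
  linear_combination hc

/-- The class number bound. -/
theorem kk_bound {p : ℕ} [hp : Fact p.Prime] [Finite G] (hG : IsPGroup p G) (n e a : ℕ) (he : e < 2)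
    (hcard : Nat.card G = p ^ (2 * n + e))
    (hk : (kk G : ℤ) = n * ((p : ℤ) ^ 2 - 1) + (p : ℤ) ^ e + a * (((p : ℤ) ^ 2 - 1) * (p - 1))) :
    kk G ≤ p ^ (5 * (a + 6)) := by
  have hp2 := hp.out.two_le
  have hh1 : (hh p (2 * n + e) : ℤ) = n * ((p : ℤ) ^ 2 - 1) + (p : ℤ) ^ e := by
    have e1 : (2 * n + e) % 2 = e := by omega
    have e2 : (2 * n + e) / 2 = n := by omega
    rw [hh, e1, e2, Nat.cast_add, Nat.cast_mul, cast_sq_sub_one p hp.out.pos]
    push_cast
    ring
  have hA : psi p (⊥ : Subgroup G) ≤ a * ((p : ℤ) ^ 2 - 1) * (p - 1) := by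
    rw [psi_bot hcard, hk, hh1]
    apply le_of_eq
    ring
  have hm := card_bound hG hcard hA
  obtain ⟨hB1, hB2, hB3, hB4⟩ := B_facts hp2 a
  have e5 : p ^ (5 * (a + 6)) = (p ^ (a + 6)) ^ 5 := by rw [← pow_mul]; ring_nf
  have hkk : kk G = p ^ e + (p ^ 2 - 1) * (n + (p - 1) * a) := by
    have h1 : 1 ≤ p ^ 2 := Nat.one_le_pow _ _ hp.out.pos
    zify [h1, hp.out.one_lt.le]
    rw [hk]
    ring
  rw [hkk, e5]
  set B := p ^ (a + 6) with hB
  have h1 : p ^ e ≤ B := Nat.pow_le_pow_right hp.out.pos (by omega)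
  have h2 : (p ^ 2 - 1) * (n + (p - 1) * a) ≤ p ^ 2 * (n + p * a) := by
    apply Nat.mul_le_mul (Nat.sub_le _ _)
    apply Nat.add_le_add_left
    exact Nat.mul_le_mul_right _ (Nat.sub_le _ _)
  have h3 : p ^ 2 * (n + p * a) = p ^ 2 * n + a * (p ^ 2 * p) := by ring
  have h4 : p ^ 2 * n ≤ B * B ^ 3 := Nat.mul_le_mul hB2 (by omega)
  have h5 : B * B ^ 3 = B ^ 4 := by ring
  have h6 : p ^ e + (p ^ 2 - 1) * (n + (p - 1) * a) ≤ B + (B ^ 4 + B) := by omega
  have h7 : B + (B ^ 4 + B) ≤ 3 * B ^ 4 := by nlinarith [Nat.one_le_pow 3 B (by omega)]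
  calc p ^ e + (p ^ 2 - 1) * (n + (p - 1) * a) ≤ 3 * B ^ 4 := h6.trans h7
    _ ≤ B * B ^ 4 := Nat.mul_le_mul_right _ (by omega)
    _ = B ^ 5 := by ring

end HallFull

end Pool.Agent.Abund
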