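import Pool.Agent.Lib_helper36.Abund.Chain

/-!
# The defect function `psi` on the lattice of normal subgroups
-/

set_option autoImplicit false

namespace Pool.Agent.Abund

open Subgroup
open scoped commutatorElement

/-- Hall's minimal number of classes for order `p ^ j`. -/
def hh (p j : ℕ) : ℕ := p ^ (j % 2) + (p ^ 2 - 1) * (j / 2)

lemma hh_zero (p : ℕ) : hh p 0 = 1 := by simp [hh]

lemma cast_sq_sub_one (p : ℕ) (hp : 1 ≤ p) : ((p ^ 2 - 1 : ℕ) : ℤ) = (p : ℤ) ^ 2 - 1 := by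
  rw [Nat.cast_sub (Nat.one_le_pow _ _ hp)]
  push_cast
  ring

lemma hh_even (p c : ℕ) (hp : 1 ≤ p) : (hh p (2 * c) : ℤ) = 1 + ((p : ℤ) ^ 2 - 1) * c := by
  have h2 : (2 * c) % 2 = 0 := by omega
  have h4 : ((2 * c : ℕ) / 2) = c := by omega
  rw [hh, h2, h4, Nat.cast_add, Nat.cast_mul, cast_sq_sub_one p hp]
  simp

lemma hh_odd (p c : ℕ) (hp : 1 ≤ p) : (hh p (2 * c + 1) : ℤ) = p + ((p : ℤ) ^ 2 - 1) * c := by
  have h2 : (2 * c + 1) % 2 = 1 := by omega
  have h4 : ((2 * c + 1 : ℕ) / 2) = c := by omega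
  rw [hh, h2, h4, Nat.cast_add, Nat.cast_mul, cast_sq_sub_one p hp]
  simp

lemma hh_succ (p j : ℕ) (hp : 1 ≤ p) :
    (hh p (j + 1) : ℤ) - hh p j = if j % 2 = 0 then (p : ℤ) - 1 else (p : ℤ) ^ 2 - p := by
  rcases Nat.even_or_odd' j with ⟨c, rfl | rfl⟩
  · rw [if_pos (by omega), hh_even p c hp, hh_odd p c hp]
    ring
  · rw [if_neg (by omega), show 2 * c + 1 + 1 = 2 * (c + 1) by ring, hh_even p (c + 1) hp,
      hh_odd p c hp]
    push_cast
    ring

lemma hh_succ_le (p j : ℕ) (hp : 1 ≤ p) :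
    (hh p (j + 1) : ℤ) ≤ hh p j + ((p : ℤ) ^ 2 - p) := by
  have h := hh_succ p j hp
  have h1 : (1 : ℤ) ≤ p := by exact_mod_cast hp
  split_ifs at h
  · nlinarith
  · linarith

/-- `2 h(j) ≤ (p ^ 2 - 1) j + 2`. -/
lemma two_mul_hh_le (p j : ℕ) (hp : 1 ≤ p) :
    2 * (hh p j : ℤ) ≤ ((p : ℤ) ^ 2 - 1) * j + 2 := by
  have h1 : (1 : ℤ) ≤ p := by exact_mod_cast hp
  rcases Nat.even_or_odd' j with ⟨c, rfl | rfl⟩
  · rw [hh_even p c hp]
    push_cast
    nlinarith
  · rw [hh_odd p c hp]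
    push_cast
    nlinarith

section Group

variable {p : ℕ} [hp : Fact p.Prime] {G : Type*} [Group G]

lemma kk_mod [Finite G] (hG : IsPGroup p G) {j : ℕ} (hj : Nat.card G = p ^ j) :
    (kk G : ZMod (p ^ 2 - 1)) = (hh p j : ℕ) := by
  have h1 : ((p : ZMod (p ^ 2 - 1))) ^ 2 = 1 := by
    have h2 : ((p ^ 2 - 1 : ℕ) : ZMod (p ^ 2 - 1)) = 0 := ZMod.natCast_self _
    have h3 : 1 ≤ p ^ 2 := Nat.one_le_pow _ _ hp.out.pos
    rw [Nat.cast_sub h3] at h2
    push_cast at h2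
    exact sub_eq_zero.1 h2
  have h2 := hall_congruence hG
  rw [hj] at h2
  have h3 : ((p ^ 2 - 1 : ℕ) : ZMod (p ^ 2 - 1)) = 0 := ZMod.natCast_self _
  unfold hh
  rw [Nat.cast_add, Nat.cast_mul, h3, zero_mul, add_zero]
  push_cast at h2 ⊢
  have h4 : ((p : ZMod (p ^ 2 - 1))) ^ j = (p : ZMod (p ^ 2 - 1)) ^ (j % 2) := by
    conv_lhs => rw [← Nat.div_add_mod j 2, pow_add, pow_mul, h1, one_pow, one_mul]
  rw [h4] at h2
  have h5 : (p : ZMod (p ^ 2 - 1)) ^ (j % 2) * (p : ZMod (p ^ 2 - 1)) ^ (j % 2) = 1 := by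
    rw [← pow_add, ← two_mul, pow_mul, h1, one_pow]
  calc (kk G : ZMod (p ^ 2 - 1)) = ((p : ZMod (p ^ 2 - 1)) ^ (j % 2) *
        (p : ZMod (p ^ 2 - 1)) ^ (j % 2)) * kk G := by rw [h5, one_mul]
    _ = (p : ZMod (p ^ 2 - 1)) ^ (j % 2) * ((p : ZMod (p ^ 2 - 1)) ^ (j % 2) * kk G) := by ring
    _ = _ := by rw [h2, mul_one]

lemma card_map_mk [Finite G] (N M : Subgroup G) [N.Normal] (h : N ≤ M) :
    Nat.card (M.map (QuotientGroup.mk' N)) * Nat.card N = Nat.card M := by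
  have h1 := card_mul_index_eq M
  have h2 := card_mul_index_eq N
  have h3 := card_mul_index_eq (M.map (QuotientGroup.mk' N))
  have h4 : (M.map (QuotientGroup.mk' N)).index = M.index := by
    apply Subgroup.index_map_eq _ (QuotientGroup.mk'_surjective N)
    rw [QuotientGroup.ker_mk']
    exact h
  have h5 : Nat.card (G ⧸ N) = N.index := rfl
  rw [h4, h5] at h3
  have h6 : 0 < M.index := Nat.pos_of_ne_zero index_ne_zero_of_finite
  apply Nat.eq_of_mul_eq_mul_right h6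
  rw [h1, ← h2, ← h3]
  ring

/-- For `M / N` central in `G / N`. -/
lemma kk_quot_central [Finite G] (N M : Subgroup G) [N.Normal] [M.Normal] (h : N ≤ M)
    (hc : ⁅M, (⊤ : Subgroup G)⁆ ≤ N) :
    kk (G ⧸ M) + Nat.card (M.map (QuotientGroup.mk' N)) ≤ kk (G ⧸ N) + 1 := by
  have hle : N ≤ M.comap (MonoidHom.id G) := by simpa using h
  refine kk_surj (QuotientGroup.map N M (MonoidHom.id G) hle) ?_ _ ?_ ?_
  · intro x
    obtain ⟨y, rfl⟩ := QuotientGroup.mk'_surjective M x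
    exact ⟨QuotientGroup.mk' N y, rfl⟩
  · rintro _ ⟨m, hm, rfl⟩
    rw [MonoidHom.mem_ker]
    show (QuotientGroup.mk' M m) = 1
    exact (QuotientGroup.eq_one_iff m).2 hm
  · rintro _ ⟨m, hm, rfl⟩
    rw [mem_center_iff]
    intro y
    obtain ⟨g, rfl⟩ := QuotientGroup.mk'_surjective N y
    have h1 : ⁅m, g⁆ ∈ N := hc (commutator_mem_commutator hm (mem_top g))
    rw [← QuotientGroup.ker_mk' N, MonoidHom.mem_ker, map_commutatorElement,
      commutatorElement_eq_one_iff_mul_comm] at h1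
    exact h1.symm

/-- The defect of a normal subgroup. -/
noncomputable def psi (p : ℕ) (M : Subgroup G) [M.Normal] : ℤ :=
  (kk (G ⧸ M) : ℤ) - hh p (Nat.log p M.index)

lemma psi_eq (M : Subgroup G) [M.Normal] {j : ℕ} (hj : M.index = p ^ j) :
    psi p M = (kk (G ⧸ M) : ℤ) - hh p j := by
  rw [psi, hj, Nat.log_pow hp.out.one_lt]

lemma exists_index [Finite G] (hG : IsPGroup p G) (M : Subgroup G) :
    ∃ j, M.index = p ^ j := hG.index M

lemma psi_step [Finite G] (hG : IsPGroup p G) (N K : Subgroup G) [hN : N.Normal] [hK : K.Normal]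
    (h : N ≤ K) (hcard : Nat.card K = p * Nat.card N) (hc : ⁅K, (⊤ : Subgroup G)⁆ ≤ N) :
    psi p K ≤ psi p N := by
  obtain ⟨j, hj⟩ := exists_index hG K
  have hj' : N.index = p ^ (j + 1) := by
    have h1 := card_mul_index_eq N
    rw [← card_mul_index_eq K, hcard, hj] at h1
    apply Nat.eq_of_mul_eq_mul_left (Nat.card_pos : 0 < Nat.card N)
    rw [h1]
    ring
  rw [psi_eq K hj, psi_eq N hj']
  have h1 := kk_quot_central N K h hc
  have h2 : Nat.card (K.map (QuotientGroup.mk' N)) = p := by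
    have h3 := card_map_mk N K h
    rw [hcard] at h3
    exact Nat.eq_of_mul_eq_mul_right Nat.card_pos h3
  rw [h2] at h1
  have h3 : (kk (G ⧸ K) : ZMod (p ^ 2 - 1)) = (hh p j : ℕ) := kk_mod (hG.to_quotient K) hj
  have h4 : (kk (G ⧸ N) : ZMod (p ^ 2 - 1)) = (hh p (j + 1) : ℕ) := kk_mod (hG.to_quotient N) hj'
  have h5 : (((kk (G ⧸ N) : ℤ) - kk (G ⧸ K) - ((hh p (j + 1) : ℤ) - hh p j) : ℤ) :
      ZMod (p ^ 2 - 1)) = 0 := by
    push_cast
    rw [h3, h4]
    ring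
  rw [ZMod.intCast_zmod_eq_zero_iff_dvd] at h5
  obtain ⟨c, hc'⟩ := h5
  have hp1 : (2 : ℤ) ≤ p := by exact_mod_cast hp.out.two_le
  have h6 : ((p ^ 2 - 1 : ℕ) : ℤ) = (p : ℤ) ^ 2 - 1 := by
    rw [Nat.cast_sub (Nat.one_le_pow _ _ hp.out.pos)]
    push_cast
    ring
  rw [h6] at hc'
  have h7 := hh_succ_le p j hp.out.pos
  have h8 : (kk (G ⧸ K) : ℤ) + p ≤ kk (G ⧸ N) + 1 := by exact_mod_cast h1
  have h9 : 0 ≤ c := by
    by_contra hcon
    have h10 : c ≤ -1 := by omega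
    nlinarith
  nlinarith

lemma psi_mono_aux [Finite G] (hG : IsPGroup p G) (M : Subgroup G) [hM : M.Normal] (k : ℕ) :
    ∀ (N : Subgroup G) [N.Normal], N ≤ M → Nat.card M = p ^ k * Nat.card N →
      psi p M ≤ psi p N := by
  induction k with
  | zero =>
    intro N hN h hcard
    have h1 : N = M := Subgroup.eq_of_le_of_card_ge h (by rw [hcard]; simp)
    subst h1
    exact le_rfl
  | succ k ih =>
    intro N hN h hcard
    have hlt : N < M := by
      refine lt_of_le_of_ne h ?_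
      rintro rfl
      have h1 : p ^ (k + 1) = 1 := by
        apply Nat.eq_of_mul_eq_mul_right (Nat.card_pos : 0 < Nat.card N)
        rw [← hcard, one_mul]
      have h2 := Nat.one_lt_pow (Nat.succ_ne_zero k) hp.out.one_lt
      exact absurd h1 h2.ne'
    obtain ⟨K, hK, h1, h2, h3, h4⟩ := exists_succ_normal hG hN hM hlt
    refine le_trans (ih K h2 ?_) (psi_step hG N K h1 h3 h4)
    rw [hcard, h3]
    ring

lemma exists_card_eq [Finite G] (hG : IsPGroup p G) {N M : Subgroup G} (h : N ≤ M) :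
    ∃ k, Nat.card M = p ^ k * Nat.card N := by
  obtain ⟨a, ha⟩ := IsPGroup.iff_card.1 (hG.to_subgroup N)
  obtain ⟨b, hb⟩ := IsPGroup.iff_card.1 (hG.to_subgroup M)
  have h1 := Subgroup.card_le_of_le h
  rw [ha, hb] at h1
  have h2 := (Nat.pow_le_pow_iff_right hp.out.one_lt).1 h1
  refine ⟨b - a, ?_⟩
  rw [ha, hb, ← pow_add]
  congr 1
  omega

lemma psi_mono [Finite G] (hG : IsPGroup p G) {N M : Subgroup G} [N.Normal] [M.Normal]
    (h : N ≤ M) : psi p M ≤ psi p N := by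
  obtain ⟨k, hk⟩ := exists_card_eq hG h
  exact psi_mono_aux hG M k N h hk

lemma psi_top [Finite G] : psi p (⊤ : Subgroup G) = 0 := by
  rw [psi_eq (p := p) (⊤ : Subgroup G) (j := 0) (by simp)]
  have : Subsingleton (G ⧸ (⊤ : Subgroup G)) := QuotientGroup.subsingleton_quotient_top
  rw [kk_of_subsingleton, hh_zero]
  simp

lemma psi_bot [Finite G] {m : ℕ} (hm : Nat.card G = p ^ m) :
    psi p (⊥ : Subgroup G) = (kk G : ℤ) - hh p m := by
  rw [psi_eq (p := p) (⊥ : Subgroup G) (j := m) (by simp [hm]),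
    kk_equiv QuotientGroup.quotientBot]

lemma gap_arith (j t : ℕ) : ((t : ℤ) + 1) * p * (p - 1) ^ 2 + ((hh p (j + 3 + t) : ℤ) - hh p j) ≤
    (p : ℤ) ^ (t + 3) - 1 := by
  have hp2 : (2 : ℤ) ≤ p := by exact_mod_cast hp.out.two_le
  induction t with
  | zero =>
    have h1 := hh_succ p j hp.out.pos
    have h2 := hh_succ p (j + 1) hp.out.pos
    have h3 := hh_succ p (j + 2) hp.out.pos
    have h4 : (hh p (j + 3 + 0) : ℤ) - hh p j = ((hh p (j + 2 + 1) : ℤ) - hh p (j + 2)) +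
        ((hh p (j + 1 + 1) : ℤ) - hh p (j + 1)) + ((hh p (j + 1) : ℤ) - hh p j) := by ring_nf
    rw [h4, h1, h2, h3]
    push_cast
    rcases Nat.even_or_odd' j with ⟨c, rfl | rfl⟩
    · have e1 : (2 * c) % 2 = 0 := by omega
      have e2 : ¬ (2 * c + 1) % 2 = 0 := by omega
      have e3 : (2 * c + 2) % 2 = 0 := by omega
      rw [if_pos e1, if_neg e2, if_pos e3]
      nlinarith
    · have e1 : ¬ (2 * c + 1) % 2 = 0 := by omega
      have e2 : (2 * c + 1 + 1) % 2 = 0 := by omega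
      have e3 : ¬ (2 * c + 1 + 2) % 2 = 0 := by omega
      rw [if_neg e1, if_pos e2, if_neg e3]
      apply le_of_eq
      ring
  | succ t ih =>
    have h1 := hh_succ_le p (j + 3 + t) hp.out.pos
    have h2 : (p : ℤ) ^ 2 * (p - 1) ≤ (p : ℤ) ^ (t + 3) * (p - 1) := by
      apply mul_le_mul_of_nonneg_right _ (by linarith)
      exact pow_le_pow_right₀ (by linarith) (by omega)
    have h3 : (p : ℤ) ^ (t + 1 + 3) = (p : ℤ) ^ (t + 3) * (p - 1) + (p : ℤ) ^ (t + 3) := by ring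
    rw [h3, show j + 3 + (t + 1) = j + 3 + t + 1 by ring]
    push_cast
    nlinarith

/-- The gap for a central layer. -/
lemma psi_gap [Finite G] (hG : IsPGroup p G) (N M : Subgroup G) [N.Normal] [M.Normal]
    (h : N ≤ M) {f : ℕ} (hcard : Nat.card M = p ^ f * Nat.card N)
    (hc : ⁅M, (⊤ : Subgroup G)⁆ ≤ N) :
    psi p M + ((f : ℤ) - 2) * p * (p - 1) ^ 2 ≤ psi p N := by
  have hp2 : (2 : ℤ) ≤ p := by exact_mod_cast hp.out.two_le
  rcases Nat.lt_or_ge f 3 with hf | hf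
  · have h1 := psi_mono hG h
    have h2 : ((f : ℤ) - 2) ≤ 0 := by
      have : (f : ℤ) < 3 := by exact_mod_cast hf
      linarith
    have h3 : ((f : ℤ) - 2) * p * (p - 1) ^ 2 ≤ 0 := by
      apply mul_nonpos_of_nonpos_of_nonneg
      · exact mul_nonpos_of_nonpos_of_nonneg h2 (by linarith)
      · positivity
    linarith
  · obtain ⟨t, rfl⟩ := Nat.exists_eq_add_of_le hf
    obtain ⟨j, hj⟩ := exists_index hG M
    have hj' : N.index = p ^ (j + 3 + t) := by
      have h1 := card_mul_index_eq N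
      rw [← card_mul_index_eq M, hcard, hj] at h1
      apply Nat.eq_of_mul_eq_mul_left (Nat.card_pos : 0 < Nat.card N)
      rw [h1]
      ring
    rw [psi_eq M hj, psi_eq N hj']
    have h1 := kk_quot_central N M h hc
    have h2 : Nat.card (M.map (QuotientGroup.mk' N)) = p ^ (3 + t) := by
      have h3 := card_map_mk N M h
      rw [hcard] at h3
      exact Nat.eq_of_mul_eq_mul_right Nat.card_pos h3
    rw [h2] at h1
    have h3 := gap_arith (p := p) j t
    have h4 : (kk (G ⧸ M) : ℤ) + (p : ℤ) ^ (3 + t) ≤ kk (G ⧸ N) + 1 := by exact_mod_cast h1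
    rw [add_comm 3 t] at h4
    push_cast
    have h5 : ((3 : ℤ) + t - 2) = t + 1 := by ring
    rw [h5]
    linarith

end Group

end Pool.Agent.Abund
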