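import Pool.Agent.Lib_helper36.Abund.Psi

/-!
# The lower exponent-`p` central series
-/

set_option autoImplicit false

namespace Pool.Agent.Abund

open Subgroup
open scoped commutatorElement

section Pw

variable {G : Type*} [Group G]

/-- The subgroup generated by the `p`-th powers of elements of `N`. -/
def pw (p : ℕ) (N : Subgroup G) : Subgroup G := closure {y | ∃ x ∈ N, x ^ p = y}

lemma pow_mem_pw (p : ℕ) {N : Subgroup G} {x : G} (hx : x ∈ N) : x ^ p ∈ pw p N :=
  subset_closure ⟨x, hx, rfl⟩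

lemma pw_le_iff (p : ℕ) {N K : Subgroup G} : pw p N ≤ K ↔ ∀ x ∈ N, x ^ p ∈ K := by
  rw [pw, closure_le]
  constructor
  · intro h x hx
    exact h ⟨x, hx, rfl⟩
  · rintro h _ ⟨x, hx, rfl⟩
    exact h x hx

lemma pw_mono (p : ℕ) {N K : Subgroup G} (h : N ≤ K) : pw p N ≤ pw p K :=
  (pw_le_iff p).2 fun _ hx => pow_mem_pw p (h hx)

lemma pw_le (p : ℕ) (N : Subgroup G) : pw p N ≤ N :=
  (pw_le_iff p).2 fun _ hx => N.pow_mem hx p

instance pw_normal (p : ℕ) (N : Subgroup G) [hN : N.Normal] : (pw p N).Normal := by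
  constructor
  intro n hn g
  have h1 : pw p N ≤ (pw p N).comap (MulAut.conj g).toMonoidHom := by
    rw [pw_le_iff]
    intro x hx
    rw [mem_comap]
    show g * x ^ p * g⁻¹ ∈ pw p N
    rw [← conj_pow]
    exact pow_mem_pw p (hN.conj_mem x hx g)
  exact h1 hn

/-- `lam p i = λ_{i+1}(G)`. -/
def lam (G : Type*) [Group G] (p : ℕ) : ℕ → Subgroup G
  | 0 => ⊤
  | i + 1 => ⁅lam G p i, (⊤ : Subgroup G)⁆ ⊔ pw p (lam G p i)

lemma lam_zero (p : ℕ) : lam G p 0 = ⊤ := rfl

lemma lam_succ (p i : ℕ) : lam G p (i + 1) = ⁅lam G p i, (⊤ : Subgroup G)⁆ ⊔ pw p (lam G p i) :=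
  rfl

instance lam_normal (p i : ℕ) : (lam G p i).Normal := by
  induction i with
  | zero => rw [lam_zero]; infer_instance
  | succ i ih => rw [lam_succ]; infer_instance

lemma lam_succ_le (p i : ℕ) : lam G p (i + 1) ≤ lam G p i := by
  rw [lam_succ]
  exact sup_le (commutator_le_left _ _) (pw_le p _)

lemma lam_anti (p : ℕ) : Antitone (lam G p) := antitone_nat_of_succ_le (lam_succ_le p)

lemma comm_top_le (p i : ℕ) : ⁅lam G p i, (⊤ : Subgroup G)⁆ ≤ lam G p (i + 1) := by
  rw [lam_succ]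
  exact le_sup_left

lemma pw_lam_le (p i : ℕ) : pw p (lam G p i) ≤ lam G p (i + 1) := by
  rw [lam_succ]
  exact le_sup_right

lemma le_iff_map_eq_bot (N X : Subgroup G) [N.Normal] :
    X ≤ N ↔ X.map (QuotientGroup.mk' N) = ⊥ := by
  rw [Subgroup.map_eq_bot_iff, QuotientGroup.ker_mk']

lemma three_mod (N A B C : Subgroup G) [N.Normal] (h1 : ⁅⁅B, C⁆, A⁆ ≤ N)
    (h2 : ⁅⁅C, A⁆, B⁆ ≤ N) : ⁅⁅A, B⁆, C⁆ ≤ N := by
  rw [le_iff_map_eq_bot, map_commutator, map_commutator] at h1 h2 ⊢
  exact commutator_commutator_eq_bot_of_rotate h1 h2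

/-- The preimage of the centralizer of the image of `Y` in `G ⧸ N`. -/
def cen (N Y : Subgroup G) [N.Normal] : Subgroup G :=
  (centralizer ((Y.map (QuotientGroup.mk' N) : Subgroup (G ⧸ N)) : Set (G ⧸ N))).comap
    (QuotientGroup.mk' N)

lemma le_cen_iff (N Y X : Subgroup G) [N.Normal] : X ≤ cen N Y ↔ ⁅X, Y⁆ ≤ N := by
  rw [cen, ← Subgroup.map_le_iff_le_comap, ← commutator_eq_bot_iff_le_centralizer,
    ← map_commutator, ← le_iff_map_eq_bot]

lemma mem_cen_iff (N Y : Subgroup G) [N.Normal] (g : G) :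
    g ∈ cen N Y ↔ ∀ y ∈ Y, ⁅g, y⁆ ∈ N := by
  rw [cen, mem_comap, mem_centralizer_iff]
  constructor
  · intro h y hy
    have h1 := h (QuotientGroup.mk' N y) ⟨y, hy, rfl⟩
    rw [← QuotientGroup.ker_mk' N, MonoidHom.mem_ker, map_commutatorElement,
      commutatorElement_eq_one_iff_mul_comm]
    exact h1.symm
  · rintro h _ ⟨y, hy, rfl⟩
    have h1 := h y hy
    rw [← QuotientGroup.ker_mk' N, MonoidHom.mem_ker, map_commutatorElement,
      commutatorElement_eq_one_iff_mul_comm] at h1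
    exact h1.symm

/-- If `z = [y, x]` commutes with `x` modulo `N` then `[y, x ^ k] = z ^ k` modulo `N`. -/
lemma comm_pow_mod (N : Subgroup G) [N.Normal] (x y : G) (h : ⁅⁅y, x⁆, x⁆ ∈ N) (k : ℕ) :
    QuotientGroup.mk' N ⁅y, x ^ k⁆ = QuotientGroup.mk' N (⁅y, x⁆ ^ k) := by
  rw [← QuotientGroup.ker_mk' N, MonoidHom.mem_ker, map_commutatorElement,
    commutatorElement_eq_one_iff_mul_comm] at h
  have h1 : Commute (QuotientGroup.mk' N ⁅y, x⁆) (QuotientGroup.mk' N x) := h
  have h2 : y * x * y⁻¹ = ⁅y, x⁆ * x := by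
    rw [commutatorElement_def]
    group
  have h3 : ⁅y, x ^ k⁆ = (y * x * y⁻¹) ^ k * (x ^ k)⁻¹ := by
    rw [conj_pow, commutatorElement_def]
  rw [h3, h2, map_mul, map_pow, map_mul, h1.mul_pow, map_inv, map_pow, map_pow]
  rw [mul_assoc, mul_inv_cancel, mul_one]

lemma mk_eq_iff_mem (N : Subgroup G) [N.Normal] {a b : G}
    (h : QuotientGroup.mk' N a = QuotientGroup.mk' N b) {K : Subgroup G} (hK : N ≤ K) (hb : b ∈ K) :
    a ∈ K := by
  have h1 : b⁻¹ * a ∈ N := QuotientGroup.eq.1 h.symm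
  have h2 := K.mul_mem hb (hK h1)
  simpa using h2

/-- `[λ_i, λ_j] ≤ λ_{i+j}`. -/
theorem comm_le (p i : ℕ) : ∀ j : ℕ, ⁅lam G p i, lam G p j⁆ ≤ lam G p (i + j + 1) := by
  induction i with
  | zero =>
    intro j
    rw [lam_zero, commutator_comm, zero_add]
    exact comm_top_le p j
  | succ i ih =>
    intro j
    rw [← le_cen_iff]
    rw [lam_succ]
    refine sup_le ?_ ?_
    · rw [le_cen_iff]
      refine three_mod _ _ _ _ ?_ ?_
      · have h1 : ⁅(⊤ : Subgroup G), lam G p j⁆ ≤ lam G p (j + 1) := by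
          rw [commutator_comm]; exact comm_top_le p j
        refine (commutator_mono h1 le_rfl).trans ?_
        rw [commutator_comm]
        refine (ih (j + 1)).trans (le_of_eq ?_)
        congr 1
        ring
      · have h1 : ⁅lam G p j, lam G p i⁆ ≤ lam G p (i + j + 1) := by
          rw [commutator_comm]; exact ih j
        refine (commutator_mono h1 le_rfl).trans ((comm_top_le p _).trans (le_of_eq ?_))
        congr 1
        ring
    · rw [pw_le_iff]
      intro x hx
      rw [mem_cen_iff]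
      intro y hy
      have h1 : ⁅y, x⁆ ∈ lam G p (i + j + 1) := by
        have h2 := commutator_mem_commutator hy hx
        rw [commutator_comm] at h2
        exact ih j h2
      have h2 : ⁅⁅y, x⁆, x⁆ ∈ lam G p (i + 1 + j + 1) := by
        have h3 := (comm_top_le p _) (commutator_mem_commutator h1 (mem_top x))
        have h4 : i + j + 1 + 1 = i + 1 + j + 1 := by ring
        rwa [h4] at h3
      have h3 := comm_pow_mod (lam G p (i + 1 + j + 1)) x y h2 p
      have h4 : ⁅y, x ^ p⁆ ∈ lam G p (i + 1 + j + 1) := by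
        refine mk_eq_iff_mem _ h3 le_rfl ?_
        have h5 := pw_lam_le p (i + j + 1) (pow_mem_pw p h1)
        have h6 : i + j + 1 + 1 = i + 1 + j + 1 := by ring
        rwa [h6] at h5
      rw [← commutatorElement_inv]
      exact inv_mem h4

/-- `[λ_n ^ p, G] ≤ λ_{n+1} ^ p λ_{2n+1}` (indices shifted by one). -/
theorem pw_comm_le (p n : ℕ) :
    ⁅pw p (lam G p n), (⊤ : Subgroup G)⁆ ≤ pw p (lam G p (n + 1)) ⊔ lam G p (2 * n + 2) := by
  rw [← le_cen_iff, pw_le_iff]
  intro x hx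
  rw [mem_cen_iff]
  intro y _
  have h1 : ⁅y, x⁆ ∈ lam G p (n + 1) := by
    have h2 := commutator_mem_commutator (mem_top y) hx
    rw [commutator_comm] at h2
    exact comm_top_le p n h2
  have h2 : ⁅⁅y, x⁆, x⁆ ∈ lam G p (2 * n + 2) := by
    have h3 := comm_le p (n + 1) n (commutator_mem_commutator h1 hx)
    have h4 : n + 1 + n + 1 = 2 * n + 2 := by ring
    rwa [h4] at h3
  have h3 := comm_pow_mod (lam G p (2 * n + 2)) x y h2 p
  have h4 : ⁅y, x ^ p⁆ ∈ pw p (lam G p (n + 1)) ⊔ lam G p (2 * n + 2) :=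
    mk_eq_iff_mem _ h3 le_sup_right ((le_sup_left : pw p (lam G p (n + 1)) ≤ _)
      (pow_mem_pw p h1))
  rw [← commutatorElement_inv]
  exact inv_mem h4

end Pw

section PGroup

variable {p : ℕ} [hp : Fact p.Prime] {G : Type*} [Group G] [Finite G]

theorem nakayama (hG : IsPGroup p G) {X : Subgroup G} (hX : X.Normal) (r : ℕ)
    (h : lam G p r ≤ X ⊔ lam G p (r + 1)) : lam G p r ≤ X := by
  by_contra hcon
  obtain ⟨K, hK, h1, h2, h3, h4⟩ := nakayama_aux hG hX (lam_normal p r) hcon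
  apply h2
  refine h.trans (sup_le h1 ?_)
  rw [lam_succ]
  exact sup_le h3 ((pw_le_iff p).2 h4)

lemma lam_strict (hG : IsPGroup p G) (r : ℕ) (h : lam G p r ≠ ⊥) :
    lam G p (r + 1) < lam G p r := by
  refine lt_of_le_of_ne (lam_succ_le p r) ?_
  intro h1
  have h2 := nakayama hG (X := ⊥) inferInstance r (by rw [h1]; exact le_sup_right)
  exact h (le_bot_iff.1 h2)

/-- The shallow case propagates. -/
theorem shallow (hG : IsPGroup p G) (i ρ : ℕ) (hρ : ρ ≤ i)
    (h : lam G p (i + ρ) ≤ pw p (lam G p i)) :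
    ∀ n, i ≤ n → lam G p (n + ρ) ≤ pw p (lam G p n) := by
  intro n hn
  induction n, hn using Nat.le_induction with
  | base => exact h
  | succ n hn ih =>
    rcases Nat.eq_zero_or_pos ρ with h0 | hpos
    · subst h0
      rw [add_zero] at ih ⊢
      have h1 : lam G p n ≤ ⊥ := by
        refine nakayama hG inferInstance n ?_
        exact (ih.trans (pw_lam_le p n)).trans le_sup_right
      have h2 : lam G p (n + 1) = ⊥ := le_bot_iff.1 ((lam_succ_le p n).trans h1)
      rw [h2]
      exact bot_le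
    · have e1 : n + 1 + ρ = n + ρ + 1 := by ring
      rw [e1]
      refine nakayama hG inferInstance _ ?_
      rw [lam_succ]
      refine sup_le ?_ ?_
      · refine (commutator_mono ih le_rfl).trans ((pw_comm_le p n).trans ?_)
        refine sup_le_sup le_rfl ?_
        exact lam_anti p (by omega)
      · refine le_trans ?_ le_sup_left
        exact pw_mono p (lam_anti p (by omega))

end PGroup

end Pool.Agent.Abund
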